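import Pool.Agent.H7.FF.Scl

/-! The criterion. -/

open MeasureTheory Filter Topology Real
open scoped ContDiff

namespace Pool.Agent.H7.FF

open Pool.Agent.Y744 Pool.Agent.Y744.ANC

variable {κ ℓ : ℝ} {A' C' : ℝ → ℝ} {C0 : ℝ}

/-- mass on the closed window -/
noncomputable def Mc (b ℓ : ℝ) : ℝ :=
  (∫ α in b..(b + ℓ), min |α| 1) + if b ≤ 0 ∧ 0 ≤ b + ℓ then 1 else 0

/-- mass on the open window -/
noncomputable def Mo (b ℓ : ℝ) : ℝ :=
  (∫ α in b..(b + ℓ), min |α| 1) + if b < 0 ∧ 0 < b + ℓ then 1 else 0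

/-- upper bound for the windows -/
def Upper (l : Filter ℝ) (ℓ : ℝ) : Prop := ∀ b ε : ℝ, 0 < ε → ∀ᶠ T in l,
  ∫ α in b..(b + ℓ), FR T α ≤ Mc b ℓ + ε

/-- lower bound for the windows -/
def Lower (l : Filter ℝ) (ℓ : ℝ) : Prop := ∀ b ε : ℝ, 0 < ε → ∀ᶠ T in l,
  Mo b ℓ - ε ≤ ∫ α in b..(b + ℓ), FR T α

/-- few small gaps -/
def Repul (l : Filter ℝ) : Prop := ∀ ε : ℝ, 0 < ε → ∃ δ₀ : ℝ, 0 < δ₀ ∧ ∀ δ : ℝ, 0 < δ → δ < δ₀ →
  ∀ᶠ T in l, Nr T (-δ) δ ≤ 1 + ε * δ

lemma EE_eq (C' : ℝ → ℝ) (ℓ c : ℝ) :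
    EE C' ℓ c = (C' (c - ℓ / 2 + ℓ) - C' (c - ℓ / 2)) - Mc (c - ℓ / 2) ℓ := by
  unfold EE Mc
  have e1 : c - ℓ / 2 + ℓ = c + ℓ / 2 := by ring
  rw [e1, CG_sub]
  by_cases h : c ∈ Set.Icc (-(ℓ / 2)) (ℓ / 2)
  · rw [Set.indicator_of_mem h, if_pos ⟨by linarith [h.2], by linarith [h.1]⟩]
    ring
  · rw [Set.indicator_of_notMem h, if_neg (fun h2 => h ⟨by linarith [h2.2], by linarith [h2.1]⟩)]
    ring

lemma lim_win {g : Ultrafilter ℝ} (hgt : (g : Filter ℝ) ≤ atTop)
    (hlimC : ∀ y, Tendsto (fun T => CT T y) (g : Filter ℝ) (𝓝 (C' y))) (b ℓ : ℝ) :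
    Tendsto (fun T => ∫ α in b..(b + ℓ), FR T α) (g : Filter ℝ) (𝓝 (C' (b + ℓ) - C' b)) := by
  refine ((hlimC (b + ℓ)).sub (hlimC b)).congr' ?_
  filter_upwards [hgt (eventually_gt_atTop (0 : ℝ))] with T hT
  exact CT_sub hT _ _

lemma EE_loc (hC' : Monotone C') (ℓ : ℝ) : LocallyIntegrable (EE C' ℓ) := by
  have h1 : LocallyIntegrable (fun c => C' (c + ℓ / 2)) volume :=
    (Monotone.locallyIntegrable (fun a b hab => hC' (by linarith)))
  have h2 : LocallyIntegrable (fun c => C' (c - ℓ / 2)) volume :=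
    (Monotone.locallyIntegrable (fun a b hab => hC' (by linarith)))
  have h3 : LocallyIntegrable (fun c => CG (c + ℓ / 2) - CG (c - ℓ / 2)) volume :=
    ((CG_cont.comp (by fun_prop : Continuous fun c : ℝ => c + ℓ / 2)).sub
      (CG_cont.comp (by fun_prop : Continuous fun c : ℝ => c - ℓ / 2))).locallyIntegrable
  have h4 : LocallyIntegrable
      ((Set.Icc (-(ℓ / 2)) (ℓ / 2)).indicator (fun _ => (1 : ℝ))) volume :=
    ((integrable_indicator_iff measurableSet_Icc).2
      (integrableOn_const (by simp) (by simp))).locallyIntegrable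
  exact ((h1.sub h2).sub h3).sub h4

/-- one sided bounds for the windows identify the limit -/
lemma limit_of_sign (RH : RiemannHypothesis) {g : Ultrafilter ℝ} (hgt : (g : Filter ℝ) ≤ atTop)
    (hA' : Monotone A') (hneg : ∀ y, y < 0 → A' y = 0) (hb : ∀ y, |A' y| ≤ C0 * (1 + y ^ 2))
    (h0 : 1 ≤ A' 0) (hlim : ∀ y, Tendsto (fun T => Aa T y) (g : Filter ℝ) (𝓝 (A' y)))
    (hm : ∀ K, TK (1 / 2) K → ∀ h, 0 < h →
      ∫ y, A' y * (ct K (y + h) - ct K (y - h)) = ∫ y, AG y * (ct K (y + h) - ct K (y - h)))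
    (hC' : Monotone C') (hlimC : ∀ y, Tendsto (fun T => CT T y) (g : Filter ℝ) (𝓝 (C' y)))
    (hℓ : 0 < ℓ) {s : ℝ} (hs : s = 1 ∨ s = -1) (hEs : ∀ᵐ c, s * EE C' ℓ c ≤ 0)
    (hlong : ∀ φ0 : ℝ → ℝ, TK 1 φ0 → (∀ y, 0 ≤ ct φ0 y) → ∀ ε : ℝ, 0 < ε → ∃ᶠ n : ℕ in atTop,
      -ε ≤ s * (Lam A' (bx ℓ (str φ0 n)) - Lam AG (bx ℓ (str φ0 n)))) (x : ℝ) :
    A' x = AG x := by
  have hconn : ∀ κ K, TK κ K → Lam A' K = -∫ x, C' x * deriv K x := fun κ K hK =>
    conn RH hgt hA' hlim hC' hlimC hK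
  obtain ⟨φ0, hφ, hφp, hφ1, hφ2, _⟩ := exists_pos2 (κ := 1) one_pos
  have hz := one_sided_zero (EE_loc hC' ℓ) hEs hs hφ hφp hφ1 (fun ε hε => by
    refine ((hlong φ0 hφ hφ2 ε hε).and_eventually (eventually_ge_atTop 1)).mono ?_
    rintro n ⟨hn, hn1⟩
    have hn0 : (0 : ℝ) < n := by exact_mod_cast hn1
    rw [← E_int hC' hconn hℓ (str_TK hφ hn0)]
    exact hn)
  have hS : ∀ κ φ, TK κ φ → Lam A' (bx ℓ φ) = Lam AG (bx ℓ φ) := by
    intro κ φ hφ
    have h1 := E_int hC' hconn hℓ hφ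
    have h2 : ∫ c, EE C' ℓ c * φ c = 0 := by
      rw [integral_eq_zero_of_ae]
      filter_upwards [hz] with c hc
      show EE C' ℓ c * φ c = 0
      rw [hc, zero_mul]
    linarith
  exact rigid hℓ hA' hneg hb h0 hm (fun κ K hK hp => Lam_pos RH hgt hA' hlim hK hp) hS x

theorem of_upper (RH : RiemannHypothesis) {l : Filter ℝ} (hl : l ≤ atTop) (hℓ : 0 < ℓ)
    (h : Upper l ℓ) (x : ℝ) : Tendsto (fun T => Aa T x) l (𝓝 (AG x)) := by
  rw [tendsto_iff_ultrafilter]
  intro g hg
  have hgt : (g : Filter ℝ) ≤ atTop := hg.trans hl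
  obtain ⟨A', C0, hA', hneg, hb, h0, hlim, hm⟩ := exists_limit RH g hgt
  obtain ⟨C', C1, hC', hC'b, hC'o, hlimC⟩ := exists_C RH g hgt
  have hE : ∀ c, EE C' ℓ c ≤ 0 := by
    intro c
    rw [EE_eq, sub_nonpos]
    refine le_of_forall_pos_le_add fun ε hε => ?_
    exact le_of_tendsto (lim_win hgt hlimC _ ℓ) (hg (h _ ε hε))
  have := limit_of_sign RH hgt hA' hneg hb h0 hlim hm hC' hlimC hℓ (s := 1) (Or.inl rfl)
    (Eventually.of_forall fun c => by rw [one_mul]; exact hE c) (fun φ0 hφ hp ε hε => by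
      obtain ⟨M, hM0, hM⟩ := long_ge RH hgt hA' h0 hlim hℓ hφ hp
      refine Eventually.frequently ?_
      have h1 : Tendsto (fun n : ℕ => M / (n : ℝ)) atTop (𝓝 0) :=
        tendsto_const_div_atTop_nhds_zero_nat M
      filter_upwards [(tendsto_order.1 h1).2 ε hε, eventually_ge_atTop 1] with n hn hn1
      have h2 := hM n (by exact_mod_cast hn1)
      rw [one_mul]
      linarith) x
  rw [← this]
  exact hlim x

theorem of_lower (RH : RiemannHypothesis) {l : Filter ℝ} (hl : l ≤ atTop) (hℓ : 0 < ℓ)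
    (h : Lower l ℓ) (hr : Repul l) (x : ℝ) : Tendsto (fun T => Aa T x) l (𝓝 (AG x)) := by
  rw [tendsto_iff_ultrafilter]
  intro g hg
  have hgt : (g : Filter ℝ) ≤ atTop := hg.trans hl
  obtain ⟨A', C0, hA', hneg, hb, h0, hlim, hm⟩ := exists_limit RH g hgt
  obtain ⟨C', C1, hC', hC'b, hC'o, hlimC⟩ := exists_C RH g hgt
  have hE : ∀ᵐ c, 0 ≤ EE C' ℓ c := by
    have hne : ∀ᵐ c : ℝ, c ∉ ({ℓ / 2, -(ℓ / 2)} : Set ℝ) :=
      (Set.Countable.ae_notMem (Set.toFinite _).countable volume)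
    filter_upwards [hne] with c hc
    rw [EE_eq, sub_nonneg]
    have hM : Mc (c - ℓ / 2) ℓ = Mo (c - ℓ / 2) ℓ := by
      unfold Mc Mo
      have hc1 : c ≠ ℓ / 2 := fun h => hc (Or.inl h)
      have hc2 : c ≠ -(ℓ / 2) := fun h => hc (Or.inr h)
      congr 1
      by_cases h2 : c - ℓ / 2 ≤ 0 ∧ 0 ≤ c - ℓ / 2 + ℓ
      · rw [if_pos h2, if_pos]
        refine ⟨lt_of_le_of_ne h2.1 fun h3 => hc1 (by linarith), lt_of_le_of_ne h2.2 fun h3 =>
          hc2 (by linarith)⟩
      · rw [if_neg h2, if_neg fun h3 => h2 ⟨h3.1.le, h3.2.le⟩]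
    rw [hM]
    refine le_of_forall_pos_le_add fun ε hε => ?_
    have := ge_of_tendsto (lim_win hgt hlimC _ ℓ) (hg (h (c - ℓ / 2) ε hε))
    linarith
  have hrep : ∀ ε : ℝ, 0 < ε → ∃ δ : ℝ, 0 < δ ∧ ∀ y, 0 < y → y < δ → A' y ≤ 1 + ε * y := by
    intro ε hε
    obtain ⟨δ, hδ, h1⟩ := hr ε hε
    refine ⟨δ, hδ, fun y hy hyd => ?_⟩
    refine le_of_tendsto (hlim y) ?_
    filter_upwards [hg (h1 y hy hyd)] with T hT
    rwa [Nr_sym] at hT
  have := limit_of_sign RH hgt hA' hneg hb h0 hlim hm hC' hlimC hℓ (s := -1) (Or.inr rfl)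
    (by filter_upwards [hE] with c hc; linarith) (fun φ0 hφ hp ε hε => by
      refine Eventually.frequently ?_
      filter_upwards [long_le RH hgt hA' h0 hneg hb hlim hrep hℓ hφ hp hε] with n hn
      linarith) x
  rw [← this]
  exact hlim x

/-- the limit of the primitive if the limit of the counting function is the predicted one -/
lemma C_of_AG (hC' : Monotone C') (hodd : ∀ y, C' (-y) = -C' y)
    (h : ∀ κ K, TK κ K → -∫ x, C' x * deriv K x = K 0 + ∫ α, K α * min |α| 1) (x : ℝ) :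
    C' x = CG x + Real.sign x / 2 := by
  set Ψ : ℝ → ℝ := fun x => C' x - CG x - Real.sign x / 2 with hΨ
  have hsm : Monotone (fun x : ℝ => Real.sign x / 2) := by
    intro a b hab
    show Real.sign a / 2 ≤ Real.sign b / 2
    rcases lt_trichotomy a 0 with ha | rfl | ha
    · rw [Real.sign_of_neg ha]
      rcases lt_trichotomy b 0 with hb | rfl | hb
      · rw [Real.sign_of_neg hb]
      · rw [Real.sign_zero]; norm_num
      · rw [Real.sign_of_pos hb]; norm_num
    · rw [Real.sign_zero]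
      rcases hab.eq_or_lt with rfl | hb
      · rw [Real.sign_zero]
      · rw [Real.sign_of_pos hb]; norm_num
    · rw [Real.sign_of_pos ha, Real.sign_of_pos (lt_of_lt_of_le ha hab)]
  have hloc : LocallyIntegrable Ψ volume :=
    ((hC'.locallyIntegrable).sub CG_cont.locallyIntegrable).sub hsm.locallyIntegrable
  have hΨo : ∀ x, Ψ (-x) = -Ψ x := by
    intro x
    simp only [hΨ]
    rw [hodd, CG_odd, Real.sign_neg]
    ring
  have hae : ∀ᵐ x, Ψ x = 0 := by
    refine ae_eq_zero_of_integral_contDiff_smul_eq_zero hloc fun g hg hgc => ?_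
    -- the odd part
    set go : ℝ → ℝ := fun x => (g x - g (-x)) / 2 with hgo
    have hgo1 : ContDiff ℝ ∞ go := by
      have hg' : ContDiff ℝ ∞ g := hg
      simp only [hgo]
      fun_prop
    have hgoc : Continuous go := hgo1.continuous
    have hgo2 : ∀ x, go (-x) = -go x := fun x => by
      simp only [hgo]
      rw [neg_neg]
      ring
    obtain ⟨R, hR⟩ : ∃ R : ℝ, ∀ x, R < |x| → go x = 0 := by
      obtain ⟨R, hR⟩ := hgc.isCompact.isBounded.subset_closedBall (0 : ℝ)
      refine ⟨R, fun x hx => ?_⟩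
      have h1 : ∀ y, R < |y| → g y = 0 := by
        intro y hy
        by_contra hne
        have := hR (subset_tsupport g hne)
        rw [Metric.mem_closedBall, Real.dist_eq, sub_zero] at this
        linarith
      simp only [hgo]
      rw [h1 x hx, h1 (-x) (by rwa [abs_neg])]
      simp
    set K : ℝ → ℝ := fun x => (∫ t in (0 : ℝ)..x, go t) - ∫ t in (0 : ℝ)..(|R| + 1), go t with hK
    have hKd : ∀ x, HasDerivAt K (go x) x := fun x =>
      (intervalIntegral.integral_hasDerivAt_right (hgoc.intervalIntegrable _ _)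
        (hgoc.stronglyMeasurableAtFilter _ _) hgoc.continuousAt).sub_const _
    have hKderiv : deriv K = go := funext fun x => (hKd x).deriv
    have hKe : ∀ x, K (-x) = K x := by
      intro x
      simp only [hK]
      congr 1
      have h1 : ∫ u in (0 : ℝ)..x, go (-u) = ∫ u in (-x)..(-0), go u :=
        intervalIntegral.integral_comp_neg _
      have h2 : ∫ u in (0 : ℝ)..x, go (-u) = -∫ u in (0 : ℝ)..x, go u := by
        rw [← intervalIntegral.integral_neg]
        exact intervalIntegral.integral_congr fun u _ => hgo2 u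
      rw [h2, neg_zero] at h1
      rw [intervalIntegral.integral_symm, ← h1, neg_neg]
    have hKs : ∀ x, |R| + 1 < |x| → K x = 0 := by
      have h1 : ∀ x, |R| + 1 < x → K x = 0 := by
        intro x hx
        simp only [hK]
        rw [intervalIntegral.integral_interval_sub_left (hgoc.intervalIntegrable _ _)
          (hgoc.intervalIntegrable _ _), intervalIntegral.integral_congr (g := fun _ => (0 : ℝ)),
          intervalIntegral.integral_zero]
        intro t ht
        rw [Set.uIcc_of_le hx.le] at ht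
        refine hR t ?_
        have := le_abs_self R
        rw [abs_of_pos (by linarith [ht.1, abs_nonneg R])]
        linarith [ht.1]
      intro x hx
      rcases abs_cases x with ⟨h2, _⟩ | ⟨h2, _⟩
      · rw [h2] at hx
        exact h1 x hx
      · rw [h2] at hx
        rw [← hKe]
        exact h1 _ hx
    have hTK : TK (|R| + 1) K := by
      refine ⟨?_, hKe, hKs⟩
      rw [contDiff_infty_iff_deriv, hKderiv]
      exact ⟨fun x => (hKd x).differentiableAt, hgo1⟩
    have hgoi : HasCompactSupport go := by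
      rw [← hKderiv]
      exact hTK.hcs.deriv
    have e1 := h _ _ hTK
    rw [hKderiv] at e1
    have e2 : ∫ x, CG x * go x = -∫ α, K α * min |α| 1 := by
      rw [parts hTK CG_deriv mn_cont, neg_neg, hKderiv]
    have j1 : Integrable fun x => C' x * go x := mono_cs_int hC' hgoc hgoi
    have j2 : Integrable fun x => CG x * go x :=
      (CG_cont.mul hgoc).integrable_of_hasCompactSupport hgoi.mul_left
    have j3 : Integrable fun x => Real.sign x / 2 * go x := mono_cs_int hsm hgoc hgoi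
    have jg : Integrable go := hgoc.integrable_of_hasCompactSupport hgoi
    have e3 : ∫ x, Real.sign x / 2 * go x = -K 0 := by
      have h1 : ∫ x, Real.sign x / 2 * go x = ∫ x, go |x| / 2 := by
        refine integral_congr_ae ?_
        have h0 : ∀ᵐ x : ℝ, x ≠ 0 := by
          rw [ae_iff]
          simp
        filter_upwards [h0] with x hx
        rcases lt_or_gt_of_ne hx with h2 | h2
        · rw [Real.sign_of_neg h2, abs_of_neg h2, hgo2]
          ring
        · rw [Real.sign_of_pos h2, abs_of_pos h2]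
          ring
      have h2 := integral_comp_abs (f := fun x => go x / 2)
      have h3 : Tendsto K atTop (𝓝 0) := by
        refine Tendsto.congr' ?_ tendsto_const_nhds
        filter_upwards [eventually_gt_atTop (|R| + 1)] with x hx
        rw [hKs x (hx.trans_le (le_abs_self x))]
      have h4 := integral_Ioi_of_hasDerivAt_of_tendsto' (a := 0) (fun y _ => hKd y)
        jg.integrableOn h3
      rw [h1]
      have h5 : ∫ x : ℝ, go |x| / 2 = ∫ x, (fun x => go x / 2) |x| := rfl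
      rw [h5, h2, integral_div, h4]
      ring
    have e4 : ∫ x, Ψ x * go x = 0 := by
      have : ∀ x, Ψ x * go x = C' x * go x - CG x * go x - Real.sign x / 2 * go x := by
        intro x
        simp only [hΨ]
        ring
      simp_rw [this]
      have k1 := integral_sub j1 j2
      have k2 : ∫ x, (C' x * go x - CG x * go x - Real.sign x / 2 * go x) =
          (∫ x, (C' x * go x - CG x * go x)) - ∫ x, Real.sign x / 2 * go x :=
        integral_sub (j1.sub j2) j3
      rw [k2, k1, e2, e3]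
      linarith
    have ig : Integrable fun x => Ψ x * g x := by
      have := hloc.integrable_smul_right_of_hasCompactSupport hg.continuous hgc
      simpa [smul_eq_mul] using this
    have ig2 : Integrable fun x => Ψ x * g (-x) := by
      have := ig.comp_neg.neg
      refine this.congr (Eventually.of_forall fun x => ?_)
      show -(Ψ (-x) * g (-x)) = _
      rw [hΨo]
      ring
    have e5 : ∫ x, Ψ x * g x = -∫ x, Ψ x * g (-x) := by
      rw [← integral_neg_eq_self, ← integral_neg]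
      refine integral_congr_ae (Eventually.of_forall fun x => ?_)
      show Ψ (-x) * g (-x) = -(Ψ x * g (-x))
      rw [hΨo]
      ring
    have e6 : ∫ x, Ψ x * go x = ((∫ x, Ψ x * g x) - ∫ x, Ψ x * g (-x)) / 2 := by
      rw [← integral_sub ig ig2, ← integral_div]
      refine integral_congr_ae (Eventually.of_forall fun x => ?_)
      show Ψ x * ((g x - g (-x)) / 2) = (Ψ x * g x - Ψ x * g (-x)) / 2
      ring
    have e7 : ∫ x, g x • Ψ x = ∫ x, Ψ x * g x := by
      refine integral_congr_ae (Eventually.of_forall fun x => ?_)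
      show g x • Ψ x = Ψ x * g x
      rw [smul_eq_mul, mul_comm]
    rw [e7]
    linarith
  -- from almost everywhere to everywhere
  have hpos : ∀ x, 0 < x → C' x = CG x + 1 / 2 := by
    have hv : ∀ y, 0 < y → Ψ y = 0 → C' y = CG y + 1 / 2 := by
      intro y hy h1
      simp only [hΨ] at h1
      rw [Real.sign_of_pos hy] at h1
      linarith
    have hdense : Dense {y | Ψ y = 0} := Measure.dense_of_ae hae
    intro x hx
    refine le_antisymm ?_ ?_
    · refine le_of_forall_pos_le_add fun ε hε => ?_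
      obtain ⟨δ, hδ, h1⟩ := Metric.eventually_nhds_iff.1
        (CG_cont.continuousAt.eventually_lt_const (show CG x < CG x + ε by linarith))
      obtain ⟨y, hy, hy1, hy2⟩ := hdense.exists_between (show x < x + δ by linarith)
      have h2 := h1 (show dist y x < δ by rw [Real.dist_eq, abs_lt]; constructor <;> linarith)
      have h3 := hv y (by linarith) hy
      have h4 := hC' hy1.le
      linarith
    · refine le_of_forall_pos_le_add fun ε hε => ?_
      obtain ⟨δ, hδ, h1⟩ := Metric.eventually_nhds_iff.1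
        (CG_cont.continuousAt.eventually_const_lt (show CG x - ε < CG x by linarith))
      obtain ⟨y, hy, hy1, hy2⟩ := hdense.exists_between
        (show max (x - δ) (x / 2) < x from max_lt (by linarith) (by linarith))
      have hy3 := (le_max_left _ _).trans_lt hy1
      have hy4 := (le_max_right _ _).trans_lt hy1
      have h2 := h1 (show dist y x < δ by rw [Real.dist_eq, abs_lt]; constructor <;> linarith)
      have h3 := hv y (by linarith) hy
      have h4 := hC' hy2.le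
      linarith
  rcases lt_trichotomy x 0 with hx | rfl | hx
  · have h1 := hpos (-x) (by linarith)
    rw [hodd, CG_odd] at h1
    rw [Real.sign_of_neg hx]
    linarith
  · have h1 := hodd 0
    have h2 := CG_odd 0
    rw [neg_zero] at h1 h2
    rw [Real.sign_zero]
    linarith
  · rw [hpos x hx, Real.sign_of_pos hx]


lemma sign_cases (b ℓ : ℝ) (hℓ : 0 < ℓ) :
    (if b < 0 ∧ 0 < b + ℓ then (1 : ℝ) else 0) ≤ Real.sign (b + ℓ) / 2 - Real.sign b / 2 ∧
    Real.sign (b + ℓ) / 2 - Real.sign b / 2 ≤ if b ≤ 0 ∧ 0 ≤ b + ℓ then (1 : ℝ) else 0 := by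
  rcases lt_trichotomy b 0 with h1 | h1 | h1
  · rcases lt_trichotomy (b + ℓ) 0 with h2 | h2 | h2
    · rw [Real.sign_of_neg h1, Real.sign_of_neg h2, if_neg (by intro h; linarith [h.2]),
        if_neg (by intro h; linarith [h.2])]
      norm_num
    · rw [Real.sign_of_neg h1, h2, Real.sign_zero, if_neg (by intro h; exact lt_irrefl _ h.2),
        if_pos ⟨h1.le, le_rfl⟩]
      norm_num
    · rw [Real.sign_of_neg h1, Real.sign_of_pos h2, if_pos ⟨h1, h2⟩, if_pos ⟨h1.le, h2.le⟩]
      norm_num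
  · subst h1
    rw [zero_add, Real.sign_zero, Real.sign_of_pos hℓ, if_neg (by intro h; exact lt_irrefl _ h.1),
      if_pos ⟨le_rfl, hℓ.le⟩]
    norm_num
  · rw [Real.sign_of_pos h1, Real.sign_of_pos (by linarith), if_neg (by intro h; linarith [h.1]),
      if_neg (by intro h; linarith [h.1])]
    norm_num

/-- the conjecture gives the limits of the windows of Montgomery's function -/
lemma windows_of_conj (RH : RiemannHypothesis) {l : Filter ℝ} (hl : l ≤ atTop)
    (h : ∀ y, 0 < y → Tendsto (fun T => Aa T y) l (𝓝 (AG y))) (b : ℝ) (hℓ : 0 < ℓ)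
    {g : Ultrafilter ℝ} (hg : (g : Filter ℝ) ≤ l) : ∃ L : ℝ, Mo b ℓ ≤ L ∧ L ≤ Mc b ℓ ∧
      Tendsto (fun T => ∫ α in b..(b + ℓ), FR T α) (g : Filter ℝ) (𝓝 L) := by
  have hgt : (g : Filter ℝ) ≤ atTop := hg.trans hl
  obtain ⟨A', C0, hA', hneg, hb, h0, hlim, hm⟩ := exists_limit RH g hgt
  obtain ⟨C', C1, hC', hC'b, hC'o, hlimC⟩ := exists_C RH g hgt
  have hAA : ∀ y, y ≠ 0 → A' y = AG y := by
    intro y hy
    rcases lt_or_gt_of_ne hy with hy | hy
    · rw [hneg y hy]
      unfold AG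
      rw [if_pos hy]
    · exact tendsto_nhds_unique (hlim y) ((h y hy).mono_left hg)
  have hLam : ∀ κ K, TK κ K → Lam A' K = Lam AG K := by
    intro κ K _
    unfold Lam
    congr 1
    have h0 : ∀ᵐ x : ℝ, x ≠ 0 := by
      rw [ae_iff]
      simp
    refine integral_congr_ae ?_
    filter_upwards [h0] with y hy
    rw [hAA y hy]
  have hC := C_of_AG hC' hC'o (fun κ K hK => by
    rw [← conn RH hgt hA' hlim hC' hlimC hK, hLam κ K hK, Lam_AG hK])
  refine ⟨C' (b + ℓ) - C' b, ?_, ?_, lim_win hgt hlimC b ℓ⟩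
  · rw [hC, hC]
    unfold Mo
    rw [← CG_sub]
    have := (sign_cases b ℓ hℓ).1
    linarith
  · rw [hC, hC]
    unfold Mc
    rw [← CG_sub]
    have := (sign_cases b ℓ hℓ).2
    linarith

theorem to_upper (RH : RiemannHypothesis) {l : Filter ℝ} (hl : l ≤ atTop) (hℓ : 0 < ℓ)
    (h : ∀ y, 0 < y → Tendsto (fun T => Aa T y) l (𝓝 (AG y))) : Upper l ℓ := by
  intro b ε hε
  have key : {T | ∫ α in b..(b + ℓ), FR T α ≤ Mc b ℓ + ε} ∈ l := by
    rw [Filter.mem_iff_ultrafilter]
    intro g hg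
    obtain ⟨L, _, h2, h3⟩ := windows_of_conj RH hl h b hℓ hg
    have h4 := (tendsto_order.1 h3).2 (Mc b ℓ + ε) (by linarith)
    exact h4.mono fun T hT => le_of_lt hT
  exact key

theorem to_lower (RH : RiemannHypothesis) {l : Filter ℝ} (hl : l ≤ atTop) (hℓ : 0 < ℓ)
    (h : ∀ y, 0 < y → Tendsto (fun T => Aa T y) l (𝓝 (AG y))) : Lower l ℓ := by
  intro b ε hε
  have key : {T | Mo b ℓ - ε ≤ ∫ α in b..(b + ℓ), FR T α} ∈ l := by
    rw [Filter.mem_iff_ultrafilter]
    intro g hg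
    obtain ⟨L, h1, _, h3⟩ := windows_of_conj RH hl h b hℓ hg
    have h4 := (tendsto_order.1 h3).1 (Mo b ℓ - ε) (by linarith)
    exact h4.mono fun T hT => le_of_lt hT
  exact key

theorem to_repul {l : Filter ℝ}
    (h : ∀ y, 0 < y → Tendsto (fun T => Aa T y) l (𝓝 (AG y))) : Repul l := by
  intro ε hε
  have hpi := Real.pi_pos
  refine ⟨min 1 (ε / (π ^ 2)), by positivity, fun δ hδ hδ1 => ?_⟩
  have h1 : δ < 1 := hδ1.trans_le (min_le_left _ _)
  have h2 : δ < ε / π ^ 2 := hδ1.trans_le (min_le_right _ _)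
  have h3 : AG δ < 1 + ε * δ := by
    rw [AG_eq hδ]
    have h4 := gp_cube hδ.le
    rw [lt_div_iff₀ (by positivity)] at h2
    have h5 : δ ^ 3 ≤ δ * δ := by nlinarith [mul_pos hδ hδ]
    have h6 : δ * (δ * π ^ 2) < δ * ε := mul_lt_mul_of_pos_left h2 hδ
    have h7 : 2 * (π ^ 2 / 9 * δ ^ 3) ≤ 2 * (π ^ 2 / 9 * (δ * δ)) := by gcongr
    have h8 : 0 ≤ π ^ 2 * (δ * δ) := by positivity
    nlinarith
  filter_upwards [(tendsto_order.1 (h δ hδ)).2 _ h3] with T hT
  rw [Nr_sym]
  exact hT.le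

/-- stability at a single height, from the criterion along sequences -/
theorem stable (RH : RiemannHypothesis) (hℓ : 0 < ℓ) {α β ε : ℝ} (hαβ : α < β) (hε : 0 < ε) :
    ∃ δ B T₀ : ℝ, 0 < δ ∧ ∀ T : ℝ, T₀ ≤ T →
      (∀ b : ℝ, |b| ≤ B → ∫ α in b..(b + ℓ), FR T α ≤ Mc b ℓ + δ) → |Nr T α β - pr α β| ≤ ε := by
  by_contra hcon
  push Not at hcon
  have h1 : ∀ n : ℕ, ∃ T : ℝ, (n : ℝ) ≤ T ∧ (∀ b : ℝ, |b| ≤ n →
      ∫ α in b..(b + ℓ), FR T α ≤ Mc b ℓ + 1 / ((n : ℝ) + 1)) ∧ ε < |Nr T α β - pr α β| :=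
    fun n => hcon (1 / ((n : ℝ) + 1)) n n (by positivity)
  choose t ht1 ht2 ht3 using h1
  have htt : Tendsto t atTop atTop := tendsto_atTop_mono ht1 tendsto_natCast_atTop_atTop
  have hU : Upper (map t atTop) ℓ := by
    intro b η hη
    rw [eventually_map]
    have h2 : ∀ᶠ n : ℕ in atTop, 1 / ((n : ℝ) + 1) < η :=
      (tendsto_order.1 tendsto_one_div_add_atTop_nhds_zero_nat).2 η hη
    obtain ⟨N, hN⟩ := exists_nat_gt |b|
    filter_upwards [h2, eventually_ge_atTop N] with n hn hnN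
    have hnN' : (N : ℝ) ≤ n := by exact_mod_cast hnN
    have := ht2 n b (by linarith)
    linarith
  have h3 := Nr_all (l := map t atTop) htt (fun x => of_upper RH htt hℓ hU x) hαβ
  rw [tendsto_map'_iff] at h3
  obtain ⟨n, hn⟩ := ((Metric.tendsto_nhds.1 h3) ε hε).exists
  rw [Real.dist_eq] at hn
  exact absurd hn (not_lt.2 (ht3 n).le)

end Pool.Agent.H7.FF
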