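import Pool.Agent.H7.FF.Lam

/-! The abstract rigidity theorem. -/

open MeasureTheory Filter Topology Real
open scoped ContDiff ENNReal

namespace Pool.Agent.H7.FF

open Pool.Agent.Y744 Pool.Agent.Y744.ANC

/-- an even integrable function with vanishing cosine transform -/
lemma even_zero {h : ℝ → ℝ} (hm : Measurable h) (hi : Integrable h) (he : ∀ x, h (-x) = h x)
    (hc : ∀ s : ℝ, ∫ x, h x * Real.cos (s * x) = 0) : ∀ᵐ x, h x = 0 := by
  set P : ℝ → ℝ := fun x => max (h x) 0 with hP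
  set N : ℝ → ℝ := fun x => max (-h x) 0 with hN
  have hPm : Measurable P := hm.max measurable_const
  have hNm : Measurable N := hm.neg.max measurable_const
  have hP0 : ∀ x, 0 ≤ P x := fun x => le_max_right _ _
  have hN0 : ∀ x, 0 ≤ N x := fun x => le_max_right _ _
  have hPN : ∀ x, h x = P x - N x := by
    intro x
    simp only [hP, hN]
    rcases le_total (h x) 0 with h | h
    · rw [max_eq_right h, max_eq_left (by linarith)]; ring
    · rw [max_eq_left h, max_eq_right (by linarith)]; ring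
  have hPle : ∀ x, P x ≤ |h x| := fun x => max_le (le_abs_self _) (abs_nonneg _)
  have hNle : ∀ x, N x ≤ |h x| := fun x => max_le (neg_le_abs _) (abs_nonneg _)
  have hPi1 : Integrable P := hi.abs.mono' hPm.aestronglyMeasurable
    (Eventually.of_forall fun x => by
      rw [Real.norm_eq_abs, abs_of_nonneg (hP0 x)]
      exact hPle x)
  have hNi1 : Integrable N := hi.abs.mono' hNm.aestronglyMeasurable
    (Eventually.of_forall fun x => by
      rw [Real.norm_eq_abs, abs_of_nonneg (hN0 x)]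
      exact hNle x)
  have hfin : ∫⁻ x, ENNReal.ofReal (P x) ≠ ⊤ := hPi1.lintegral_lt_top.ne
  have hfinN : ∫⁻ x, ENNReal.ofReal (N x) ≠ ⊤ := hNi1.lintegral_lt_top.ne
  have : IsFiniteMeasure (den P) := isFiniteMeasure_withDensity hfin
  have : IsFiniteMeasure (den N) := isFiniteMeasure_withDensity hfinN
  have hint : ∀ t : ℝ, ∀ Q : ℝ → ℝ, Measurable Q → Integrable Q → Integrable fun x : ℝ =>
      (Q x : ℂ) * Complex.exp (t * x * Complex.I) := by
    intro t Q hQm hQ
    refine hQ.norm.mono' ?_ (Eventually.of_forall fun x => ?_)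
    · refine (Complex.measurable_ofReal.comp hQm).aestronglyMeasurable.mul ?_
      apply Continuous.aestronglyMeasurable
      fun_prop
    · rw [norm_mul, Complex.norm_real]
      have : ‖Complex.exp (t * x * Complex.I)‖ = 1 := by
        have := Complex.norm_exp_ofReal_mul_I (t * x)
        rw [← this]
        push_cast
        rfl
      rw [this, mul_one]
  have hchar : charFun (den P) = charFun (den N) := by
    funext t
    rw [charFun_apply_real, charFun_apply_real, den_int hPm hP0, den_int hNm hN0, ← sub_eq_zero,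
      ← integral_sub (hint t P hPm hPi1) (hint t N hNm hNi1)]
    have e1 : ∀ x : ℝ, (P x : ℂ) * Complex.exp (t * x * Complex.I) -
        (N x : ℂ) * Complex.exp (t * x * Complex.I) =
        ((h x * Real.cos (t * x) : ℝ) : ℂ) + ((h x * Real.sin (t * x) : ℝ) : ℂ) * Complex.I := by
      intro x
      rw [hPN x]
      have := Complex.exp_mul_I ((t * x : ℝ) : ℂ)
      push_cast at this ⊢
      rw [this]
      ring
    simp_rw [e1]
    have j1 : Integrable fun x => h x * Real.cos (t * x) := by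
      refine hi.abs.mono' (hm.mul (by fun_prop)).aestronglyMeasurable
        (Eventually.of_forall fun x => ?_)
      rw [Real.norm_eq_abs, abs_mul]
      exact mul_le_of_le_one_right (abs_nonneg _) (Real.abs_cos_le_one _)
    have j2 : Integrable fun x => h x * Real.sin (t * x) := by
      refine hi.abs.mono' (hm.mul (by fun_prop)).aestronglyMeasurable
        (Eventually.of_forall fun x => ?_)
      rw [Real.norm_eq_abs, abs_mul]
      exact mul_le_of_le_one_right (abs_nonneg _) (Real.abs_sin_le_one _)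
    have hs : ∫ x, h x * Real.sin (t * x) = 0 := by
      have h1 : ∫ x, h x * Real.sin (t * x) = ∫ x, h (-x) * Real.sin (t * (-x)) :=
        (integral_neg_eq_self (fun x => h x * Real.sin (t * x)) volume).symm
      have h2 : ∫ x, h (-x) * Real.sin (t * (-x)) = -∫ x, h x * Real.sin (t * x) := by
        rw [← integral_neg]
        refine integral_congr_ae (Eventually.of_forall fun α => ?_)
        show h (-α) * Real.sin (t * (-α)) = -(h α * Real.sin (t * α))
        rw [he, mul_neg, Real.sin_neg]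
        ring
      linarith
    have k1 : ∫ x, ((h x * Real.cos (t * x) : ℝ) : ℂ) =
        ((∫ x, h x * Real.cos (t * x) : ℝ) : ℂ) := integral_ofReal
    have k2 : ∫ x, ((h x * Real.sin (t * x) : ℝ) : ℂ) =
        ((∫ x, h x * Real.sin (t * x) : ℝ) : ℂ) := integral_ofReal
    have k3 : ∫ x, (((h x * Real.cos (t * x) : ℝ) : ℂ) +
        ((h x * Real.sin (t * x) : ℝ) : ℂ) * Complex.I) =
        (∫ x, ((h x * Real.cos (t * x) : ℝ) : ℂ)) +
        ∫ x, ((h x * Real.sin (t * x) : ℝ) : ℂ) * Complex.I :=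
      integral_add j1.ofReal (j2.ofReal.mul_const _)
    rw [k3, integral_mul_const, k1, k2, hc t, hs]
    simp
  have hmeas := Measure.ext_of_charFun hchar
  have heq := (withDensity_eq_iff hPm.ennreal_ofReal.aemeasurable hNm.ennreal_ofReal.aemeasurable
    hfin).1 hmeas
  filter_upwards [heq] with x hx
  have h1 : P x = N x := (ENNReal.ofReal_eq_ofReal_iff (hP0 x) (hN0 x)).1 hx
  rw [hPN x, h1, sub_self]

variable {κ ℓ : ℝ} {K : ℝ → ℝ} {A A' : ℝ → ℝ} {C0 : ℝ}

/-- the zeros of the kernel of the window -/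
lemma sinc_ae {ℓ : ℝ} (hℓ : 0 < ℓ) : ∀ᵐ u : ℝ, Real.sinc (π * ℓ * u) ≠ 0 := by
  have hpi := Real.pi_pos
  have hc : (Set.range fun n : ℤ => (n : ℝ) / ℓ).Countable := Set.countable_range _
  have h1 := hc.ae_notMem (volume : Measure ℝ)
  filter_upwards [h1] with u hu h2
  rcases eq_or_ne u 0 with rfl | hu0
  · simp at h2
  · rw [Real.sinc_of_ne_zero (by positivity), div_eq_zero_iff] at h2
    rcases h2 with h2 | h2
    · rw [Real.sin_eq_zero_iff] at h2
      obtain ⟨n, hn⟩ := h2
      refine hu ⟨n, ?_⟩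
      show (n : ℝ) / ℓ = u
      rw [div_eq_iff hℓ.ne']
      have : π * (n : ℝ) = π * (u * ℓ) := by linarith
      exact mul_left_cancel₀ hpi.ne' this
    · exact absurd h2 (by positivity)

/-- removing the frequencies seen by the window -/
lemma op_step (hℓ : 0 < ℓ) (hK : TK κ K) (hA' : Measurable A')
    (hb : ∀ y, |A' y| ≤ C0 * (1 + y ^ 2))
    (hS : ∀ κ φ, TK κ φ → Lam A' (bx ℓ φ) = Lam AG (bx ℓ φ)) :
    ∃ K', TK (κ + ℓ) K' ∧ (∀ u, ct K' u = (1 - Real.sinc (π * ℓ * u) ^ 2) * ct K u) ∧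
      Lam A' K' - Lam AG K' = Lam A' K - Lam AG K := by
  have h1 := bx_TK hK hℓ
  have h2 := bx_TK h1 hℓ
  have e : κ + ℓ / 2 + ℓ / 2 = κ + ℓ := by ring
  rw [e] at h2
  have h3 := TK_smul h2 (ℓ⁻¹ ^ 2)
  have hK0 := hK.mono (κ' := κ + ℓ) (by linarith)
  refine ⟨fun α => K α - ℓ⁻¹ ^ 2 * bx ℓ (bx ℓ K) α, TK_sub hK0 h3, fun u => ?_, ?_⟩
  · rw [ct_sub hK0 h3, ct_smul, ct_bx h1 hℓ, ct_bx hK hℓ]
    field_simp
  · rw [Lam_sub hA' hb hK0 h3, Lam_sub AG_meas AG_bound hK0 h3, Lam_smul, Lam_smul,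
      hS _ _ h1]
    ring

lemma op_iter (hℓ : 0 < ℓ) (hK : TK κ K) (hA' : Measurable A')
    (hb : ∀ y, |A' y| ≤ C0 * (1 + y ^ 2))
    (hS : ∀ κ φ, TK κ φ → Lam A' (bx ℓ φ) = Lam AG (bx ℓ φ)) (m : ℕ) :
    ∃ K', TK (κ + m * ℓ) K' ∧ (∀ u, ct K' u = (1 - Real.sinc (π * ℓ * u) ^ 2) ^ m * ct K u) ∧
      Lam A' K' - Lam AG K' = Lam A' K - Lam AG K := by
  induction m with
  | zero => exact ⟨K, by simpa using hK, fun u => by simp, rfl⟩
  | succ m ih =>
    obtain ⟨K1, h1, h2, h3⟩ := ih
    obtain ⟨K2, g1, g2, g3⟩ := op_step hℓ h1 hA' hb hS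
    refine ⟨K2, ?_, fun u => ?_, ?_⟩
    · have e : κ + m * ℓ + ℓ = κ + ((m + 1 : ℕ) : ℝ) * ℓ := by push_cast; ring
      rwa [e] at g1
    · rw [g2, h2, pow_succ]
      ring
    · rw [g3, h3]

/-- positivity of the discrepancy -/
lemma disc_nonneg (hℓ : 0 < ℓ) (hK : TK κ K) (hA' : Measurable A')
    (hb : ∀ y, |A' y| ≤ C0 * (1 + y ^ 2))
    (hpos : ∀ κ K, TK κ K → (∀ y, 0 ≤ ct K y) → 0 ≤ Lam A' K)
    (hS : ∀ κ φ, TK κ φ → Lam A' (bx ℓ φ) = Lam AG (bx ℓ φ)) (hKp : ∀ y, 0 ≤ ct K y) :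
    0 ≤ Lam A' K - Lam AG K := by
  choose K' h1 h2 h3 using fun m => op_iter hℓ hK hA' hb hS m
  have hs1 : ∀ u : ℝ, 0 ≤ 1 - Real.sinc (π * ℓ * u) ^ 2 := fun u => by
    have h := Real.abs_sinc_le_one (π * ℓ * u)
    have := (sq_le_one_iff_abs_le_one _).2 h
    linarith
  have hs2 : ∀ u : ℝ, 1 - Real.sinc (π * ℓ * u) ^ 2 ≤ 1 := fun u => by
    have := sq_nonneg (Real.sinc (π * ℓ * u))
    linarith
  have hn : ∀ m y, 0 ≤ ct (K' m) y := fun m y => by
    rw [h2]
    exact mul_nonneg (pow_nonneg (hs1 y) m) (hKp y)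
  have hlow : ∀ m, -Lam AG (K' m) ≤ Lam A' K - Lam AG K := by
    intro m
    have := hpos _ _ (h1 m) (hn m)
    rw [← h3 m]
    linarith
  have hlim : Tendsto (fun m : ℕ => Lam AG (K' m)) atTop (𝓝 0) := by
    have e : ∀ m : ℕ, Lam AG (K' m) = (1 - Real.sinc (π * ℓ * 0) ^ 2) ^ m * ct K 0 +
        ∫ y, (1 - Real.sinc (π * ℓ * y) ^ 2) ^ m * ct K y * gd y := by
      intro m
      rw [Lam_AG0 (h1 m), h2]
      congr 1
      refine integral_congr_ae (Eventually.of_forall fun y => ?_)
      show ct (K' m) y * gd y = _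
      rw [h2]
    simp_rw [e]
    have t1 : Tendsto (fun m : ℕ => (1 - Real.sinc (π * ℓ * 0) ^ 2) ^ m * ct K 0) atTop
        (𝓝 (0 * ct K 0)) := by
      refine Tendsto.mul_const _ ?_
      refine tendsto_pow_atTop_nhds_zero_of_lt_one (hs1 0) ?_
      simp
    have t2 : Tendsto (fun m : ℕ => ∫ y, (1 - Real.sinc (π * ℓ * y) ^ 2) ^ m * ct K y * gd y) atTop
        (𝓝 (∫ _ : ℝ, (0 : ℝ))) := by
      have hi := ct_int hK
      have hsc : Continuous fun y : ℝ => Real.sinc (π * ℓ * y) :=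
        Real.continuous_sinc.comp (by fun_prop)
      refine tendsto_integral_of_dominated_convergence (fun y => ct K y) (fun m => ?_) hi
        (fun m => Eventually.of_forall fun y => ?_) ?_
      · exact ((((continuous_const.sub (hsc.pow 2)).pow m).mul hK.ct_cont).mul
          gd_cont).aestronglyMeasurable
      · rw [Real.norm_eq_abs, abs_of_nonneg (mul_nonneg (mul_nonneg (pow_nonneg (hs1 y) m)
          (hKp y)) (gd_nonneg y))]
        calc (1 - Real.sinc (π * ℓ * y) ^ 2) ^ m * ct K y * gd y ≤ 1 * ct K y * 1 := by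
              refine mul_le_mul (mul_le_mul_of_nonneg_right (pow_le_one₀ (hs1 y) (hs2 y))
                (hKp y)) (gd_le y) (gd_nonneg y) ?_
              rw [one_mul]
              exact hKp y
          _ = ct K y := by ring
      · filter_upwards [sinc_ae hℓ] with y hy
        have h4 : Tendsto (fun m : ℕ => (1 - Real.sinc (π * ℓ * y) ^ 2) ^ m) atTop (𝓝 0) := by
          refine tendsto_pow_atTop_nhds_zero_of_lt_one (hs1 y) ?_
          have : 0 < Real.sinc (π * ℓ * y) ^ 2 := by positivity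
          linarith
        have h5 := (h4.mul_const (ct K y)).mul_const (gd y)
        simpa using h5
    have := t1.add t2
    simpa using this
  have h4 : Tendsto (fun m : ℕ => -Lam AG (K' m)) atTop (𝓝 (-0)) := hlim.neg
  rw [neg_zero] at h4
  exact le_of_tendsto' h4 hlow

/-- the special test functions have nonnegative transforms -/
lemma ct_K2_nonneg (hκ : 0 < κ) (hK : TK κ K) (hKp : ∀ y, 0 ≤ ct K y) (y : ℝ) :
    0 ≤ ct (K2 K) y := by
  have hK2 := K2_TK hκ hK
  have key : ∀ y, 0 ≤ y → 0 ≤ ct (K2 K) y := by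
    intro y hy
    have hanti : AntitoneOn (ct (K2 K)) (Set.Ici 0) := by
      refine antitoneOn_of_deriv_nonpos (convex_Ici 0) hK2.ct_cont.continuousOn
        (fun x _ => (ct_K2_deriv hκ hK x).differentiableAt.differentiableWithinAt) fun x hx => ?_
      rw [(ct_K2_deriv hκ hK x).deriv]
      rw [interior_Ici] at hx
      have := mul_nonneg (le_of_lt (Set.mem_Ioi.1 hx)) (hKp x)
      linarith
    refine le_of_tendsto (ct_tendsto hK2) ?_
    filter_upwards [eventually_ge_atTop y] with z hz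
    exact hanti (Set.mem_Ici.2 hy) (Set.mem_Ici.2 (hy.trans hz)) hz
  rcases le_total 0 y with h | h
  · exact key y h
  · have := key (-y) (by linarith)
    rwa [TK.ct_neg] at this

/-- **the abstract rigidity theorem** -/
theorem rigid (hℓ : 0 < ℓ) (hA' : Monotone A') (hneg : ∀ y, y < 0 → A' y = 0)
    (hb : ∀ y, |A' y| ≤ C0 * (1 + y ^ 2)) (h0 : 1 ≤ A' 0)
    (hm : ∀ K, TK (1 / 2) K → ∀ h, 0 < h →
      ∫ y, A' y * (ct K (y + h) - ct K (y - h)) = ∫ y, AG y * (ct K (y + h) - ct K (y - h)))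
    (hpos : ∀ κ K, TK κ K → (∀ y, 0 ≤ ct K y) → 0 ≤ Lam A' K)
    (hS : ∀ κ φ, TK κ φ → Lam A' (bx ℓ φ) = Lam AG (bx ℓ φ)) (x : ℝ) : A' x = AG x := by
  have hEm := dE_meas hA'
  have hEb := dE_bound hb
  have hC0 : 0 ≤ C0 := by
    have := (abs_nonneg _).trans (hb 0)
    simpa using this
  set H : ℝ → ℝ := fun y => y * dE A' y with hH
  have hHm : Measurable H := measurable_id.mul hEm
  have hHe : ∀ y, H (-y) = H y := by
    intro y
    simp only [hH]
    rw [dE_odd]
    ring
  have hHb : ∀ y, |H y| ≤ (2 * C0 + 4) * (1 + y ^ 2) ^ 2 := by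
    intro y
    simp only [hH]
    rw [abs_mul]
    calc |y| * |dE A' y| ≤ (1 + y ^ 2) * ((2 * C0 + 4) * (1 + y ^ 2)) :=
          mul_le_mul (abs_le_one_add_sq y) (hEb y) (abs_nonneg _) (by positivity)
      _ = (2 * C0 + 4) * (1 + y ^ 2) ^ 2 := by ring
  have hHi : ∀ κ K, TK κ K → Integrable fun y => H y * ct K y := by
    intro κ K hK
    obtain ⟨D, hD0, hD⟩ := hK.decay 3
    refine (integrable_inv_one_add_sq.const_mul ((2 * C0 + 4) * D)).mono'
      (hHm.mul hK.ct_cont.measurable).aestronglyMeasurable (Eventually.of_forall fun y => ?_)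
    rw [Real.norm_eq_abs, abs_mul]
    have h1 : 0 < 1 + y ^ 2 := by positivity
    calc |H y| * |ct K y| ≤ ((2 * C0 + 4) * (1 + y ^ 2) ^ 2) * (D / (1 + y ^ 2) ^ 3) :=
          mul_le_mul (hHb y) (hD y) (abs_nonneg _) (by positivity)
      _ = (2 * C0 + 4) * D * (1 + y ^ 2)⁻¹ := by field_simp
  have hHpos : ∀ κ K, 0 < κ → TK κ K → (∀ y, 0 ≤ ct K y) → 0 ≤ ∫ y, H y * ct K y := by
    intro κ K hκ hK hKp
    have h1 := disc_nonneg hℓ (K2_TK hκ hK) hA'.measurable hb hpos hS (ct_K2_nonneg hκ hK hKp)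
    rw [Lam_K2 hκ hK hA' hb hneg] at h1
    simp only [hH]
    linarith
  have hHz : ∀ K, TK (1 / 2) K → ∫ y, H y * ct K y = 0 := fun K hK =>
    annih3 (by norm_num) hK hA' hb hm
  obtain ⟨R, hR, _, _, hRp, hR0⟩ := exists_pos2 (κ := 1 / 2) (by norm_num)
  have key : ∀ ε : ℝ, 0 < ε → ε ≤ 1 → ∀ᵐ y, H y * ct R (ε * y) = 0 := by
    intro ε hε hε1
    have h1 := (hR.dil hε).mono (κ' := 1 / 2) (by linarith)
    set Rε : ℝ → ℝ := fun α => ε⁻¹ * R (ε⁻¹ * α) with hRε
    have hct : ∀ y, ct Rε y = ct R (ε * y) := fun y => TK.ct_dil R hε y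
    refine even_zero (h := fun y => H y * ct R (ε * y)) ?_ ?_ ?_ ?_
    · exact hHm.mul (hR.ct_cont.comp (by fun_prop)).measurable
    · refine (hHi _ _ h1).congr (Eventually.of_forall fun y => ?_)
      show H y * ct Rε y = H y * ct R (ε * y)
      rw [hct]
    · intro y
      show H (-y) * ct R (ε * (-y)) = H y * ct R (ε * y)
      rw [hHe, mul_neg, TK.ct_neg]
    · intro s
      set s' : ℝ := s / (2 * π) with hs'
      have hpi := Real.pi_pos
      have hss : 2 * π * s' = s := by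
        rw [hs']
        field_simp
      have h2 := h1.modul s'
      set Ms : ℝ → ℝ := fun α => (Rε (α - s') + Rε (α + s')) / 2 with hMs
      have hcM : ∀ y, ct Ms y = Real.cos (s * y) * ct Rε y := by
        intro y
        rw [hMs, h1.ct_modul s' y, hss]
      have h1' := h1.mono (κ' := 1 / 2 + |s'|) (by linarith [abs_nonneg s'])
      have hp1 := h1'.add h2
      have hp2 := TK_sub h1' h2
      have hz := hHz _ h1
      have hc1 : ∀ y, |Real.cos (s * y)| ≤ 1 := fun y => Real.abs_cos_le_one _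
      have q1 := hHpos _ _ (by positivity) hp1 (fun y => by
        rw [h1'.ct_add h2, hcM, hct]
        have := abs_le.1 (hc1 y)
        nlinarith [hRp (ε * y), this.1])
      have q2 := hHpos _ _ (by positivity) hp2 (fun y => by
        rw [ct_sub h1' h2, hcM, hct]
        have := abs_le.1 (hc1 y)
        nlinarith [hRp (ε * y), this.2])
      have e1 : ∫ y, H y * ct (fun α => Rε α + Ms α) y =
          (∫ y, H y * ct Rε y) + ∫ y, H y * ct Ms y := by
        rw [← integral_add (hHi _ _ h1') (hHi _ _ h2)]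
        refine integral_congr_ae (Eventually.of_forall fun y => ?_)
        show H y * ct (fun α => Rε α + Ms α) y = H y * ct Rε y + H y * ct Ms y
        rw [h1'.ct_add h2]
        ring
      have e2 : ∫ y, H y * ct (fun α => Rε α - Ms α) y =
          (∫ y, H y * ct Rε y) - ∫ y, H y * ct Ms y := by
        rw [← integral_sub (hHi _ _ h1') (hHi _ _ h2)]
        refine integral_congr_ae (Eventually.of_forall fun y => ?_)
        show H y * ct (fun α => Rε α - Ms α) y = H y * ct Rε y - H y * ct Ms y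
        rw [ct_sub h1' h2]
        ring
      rw [e1, hz] at q1
      rw [e2, hz] at q2
      have e3 : ∫ y, H y * ct R (ε * y) * Real.cos (s * y) = ∫ y, H y * ct Ms y := by
        refine integral_congr_ae (Eventually.of_forall fun y => ?_)
        show H y * ct R (ε * y) * Real.cos (s * y) = H y * ct Ms y
        rw [hcM, hct]
        ring
      rw [e3]
      linarith
  -- conclusion
  obtain ⟨δ, hδ, hδ2⟩ := Metric.eventually_nhds_iff.1
    ((hR.ct_cont.continuousAt (x := 0)).eventually_const_lt hR0)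
  have hall : ∀ᵐ y, ∀ n : ℕ, H y * ct R (1 / ((n : ℝ) + 1) * y) = 0 := by
    rw [ae_all_iff]
    intro n
    refine key _ (by positivity) ?_
    rw [div_le_one (by positivity)]
    have : (0 : ℝ) ≤ n := Nat.cast_nonneg n
    linarith
  have hn0 : ∀ᵐ x : ℝ, x ≠ 0 := by
    rw [ae_iff]
    simp
  have hfin : ∀ᵐ y, dE A' y = 0 := by
    filter_upwards [hall, hn0] with y hy hy0
    obtain ⟨n, hn⟩ := exists_nat_gt (|y| / δ)
    have h1 := hy n
    have h2 : 0 < ct R (1 / ((n : ℝ) + 1) * y) := by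
      refine hδ2 ?_
      rw [Real.dist_eq, sub_zero, abs_mul, abs_of_pos (by positivity), one_div,
        inv_mul_lt_iff₀ (by positivity)]
      rw [div_lt_iff₀ hδ] at hn
      linarith
    have h3 := (mul_eq_zero.1 h1).resolve_right h2.ne'
    exact (mul_eq_zero.1 h3).resolve_left hy0
  exact limit_anchored hA' hneg hb h0 hfin x

end Pool.Agent.H7.FF
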