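import Pool.Graph.R_seed8.Y744.PCR.ConnB

/-! Further properties of the test functions. -/

open MeasureTheory Filter Topology Real
open scoped ContDiff

namespace Pool.Agent.H7.FF

open Pool.Agent.Y744

variable {κ ℓ : ℝ} {K : ℝ → ℝ}

/-- a nonnegative test function with nonnegative transform -/
lemma exists_pos2 {κ : ℝ} (hκ : 0 < κ) : ∃ K, TK κ K ∧ (∀ x, 0 ≤ K x) ∧ 0 < K 0 ∧
    (∀ x, 0 ≤ ct K x) ∧ 0 < ct K 0 := by
  let f : ContDiffBump (0 : ℝ) := ⟨κ / 4, κ / 2, by positivity, by linarith⟩
  have hf : TK (κ / 2) (fun x => f x) := by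
    refine ⟨f.contDiff, fun x => f.neg x, fun x hx => ?_⟩
    by_contra hne
    have h1 : x ∈ Function.support f := hne
    rw [f.support_eq] at h1
    rw [Metric.mem_ball, Real.dist_eq, sub_zero] at h1
    exact absurd hx (not_lt.2 h1.le)
  set F : ℝ → ℝ := fun x => f x with hF
  set G : ℝ → ℝ := convolution F F (ContinuousLinearMap.mul ℝ ℝ) volume with hG
  have hGt : TK κ G := by
    refine ⟨?_, fun x => ?_, fun x hx => ?_⟩
    · exact HasCompactSupport.contDiff_convolution_right _ hf.hcs
        (hf.cont.locallyIntegrable) hf.smooth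
    · rw [hG]
      unfold convolution
      rw [← integral_neg_eq_self]
      refine integral_congr_ae (Eventually.of_forall fun t => ?_)
      show F (-t) * F (-x - -t) = F t * F (x - t)
      rw [hf.even, ← hf.even (-x - -t)]
      congr 2
      ring
    · rw [hG]
      unfold convolution
      rw [integral_eq_zero_of_ae]
      refine Eventually.of_forall fun t => ?_
      show F t * F (x - t) = 0
      by_cases h1 : κ / 2 < |t|
      · rw [hf.supp t h1, zero_mul]
      · rw [hf.supp (x - t), mul_zero]
        have := abs_sub_abs_le_abs_sub x t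
        linarith
  have key : ∀ x, ct G x = (ct F x) ^ 2 := by
    intro x
    set c : ℝ := 2 * π * x with hc
    set A : ℝ → ℝ := fun α => F α * Real.cos (c * α) with hA
    set B : ℝ → ℝ := fun α => F α * Real.sin (c * α) with hB
    have iA : Integrable A := hf.mul_int (by fun_prop)
    have iB : Integrable B := hf.mul_int (by fun_prop)
    have hAc : HasCompactSupport A := hf.hcs.mul_right
    have hBc : HasCompactSupport B := hf.hcs.mul_right
    have cA : Continuous A := hf.cont.mul (by fun_prop)
    have cB : Continuous B := hf.cont.mul (by fun_prop)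
    have e1 : ∀ α, G α * Real.cos (c * α) = convolution A A (ContinuousLinearMap.mul ℝ ℝ) volume α -
        convolution B B (ContinuousLinearMap.mul ℝ ℝ) volume α := by
      intro α
      rw [hG]
      unfold convolution
      have i1 : Integrable fun t => A t * A (α - t) :=
        (cA.mul (by fun_prop)).integrable_of_hasCompactSupport hAc.mul_right
      have i2 : Integrable fun t => B t * B (α - t) :=
        (cB.mul (by fun_prop)).integrable_of_hasCompactSupport hBc.mul_right
      show (∫ t, F t * F (α - t)) * Real.cos (c * α) = (∫ t, A t * A (α - t)) -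
        ∫ t, B t * B (α - t)
      rw [← integral_sub i1 i2, ← integral_mul_const]
      refine integral_congr_ae (Eventually.of_forall fun t => ?_)
      show F t * F (α - t) * Real.cos (c * α) = F t * Real.cos (c * t) *
        (F (α - t) * Real.cos (c * (α - t))) - F t * Real.sin (c * t) *
        (F (α - t) * Real.sin (c * (α - t)))
      have : c * α = c * t + c * (α - t) := by ring
      rw [this, Real.cos_add]
      ring
    have e2 : ct G x = (∫ α, convolution A A (ContinuousLinearMap.mul ℝ ℝ) volume α) -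
        ∫ α, convolution B B (ContinuousLinearMap.mul ℝ ℝ) volume α := by
      rw [← integral_sub (iA.integrable_convolution _ iA) (iB.integrable_convolution _ iB)]
      unfold ct
      exact integral_congr_ae (Eventually.of_forall fun α => e1 α)
    rw [e2, integral_convolution _ iA iA, integral_convolution _ iB iB]
    have e3 : ∫ α, B α = 0 := hf.sin_zero c
    rw [e3]
    show (∫ α, A α) * (∫ α, A α) - 0 * 0 = (ct F x) ^ 2
    have e4 : ∫ α, A α = ct F x := rfl
    rw [e4]
    ring
  have hF0 : 0 < ct F 0 := by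
    unfold ct
    have : ∫ α, F α * Real.cos (2 * π * 0 * α) = ∫ α, F α := by simp
    rw [this]
    exact f.integral_pos
  have hG0 : 0 < G 0 := by
    have e : G 0 = ∫ t, F t * F t := by
      rw [hG]
      unfold convolution
      refine integral_congr_ae (Eventually.of_forall fun t => ?_)
      show F t * F (0 - t) = F t * F t
      rw [zero_sub, hf.even]
    rw [e, integral_pos_iff_support_of_nonneg (fun t => mul_self_nonneg _)
      ((hf.cont.mul hf.cont).integrable_of_hasCompactSupport hf.hcs.mul_right)]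
    have hs : Metric.ball (0 : ℝ) (κ / 4) ⊆ Function.support fun t => F t * F t := by
      intro t ht
      have h1 : F t = 1 := f.one_of_mem_closedBall (Metric.ball_subset_closedBall ht)
      show F t * F t ≠ 0
      rw [h1]
      norm_num
    refine lt_of_lt_of_le ?_ (measure_mono hs)
    exact Metric.measure_ball_pos _ _ (by positivity)
  refine ⟨G, hGt, fun x => ?_, hG0, fun x => by rw [key]; positivity, by rw [key]; positivity⟩
  rw [hG]
  unfold convolution
  refine integral_nonneg fun t => ?_
  show 0 ≤ F t * F (x - t)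
  exact mul_nonneg f.nonneg f.nonneg

lemma TK_sub (h : TK κ K) {K' : ℝ → ℝ} (h' : TK κ K') : TK κ (fun α => K α - K' α) where
  smooth := h.smooth.sub h'.smooth
  even := fun x => by simp only [h.even, h'.even]
  supp := fun x hx => by simp only [h.supp x hx, h'.supp x hx, sub_zero]

lemma ct_sub (h : TK κ K) {K' : ℝ → ℝ} (h' : TK κ K') (x : ℝ) :
    ct (fun α => K α - K' α) x = ct K x - ct K' x := by
  unfold ct
  rw [← integral_sub (h.mul_int (by fun_prop)) (h'.mul_int (by fun_prop))]
  refine integral_congr_ae (Eventually.of_forall fun α => ?_)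
  show (K α - K' α) * _ = _
  ring

lemma TK_smul (h : TK κ K) (c : ℝ) : TK κ (fun α => c * K α) where
  smooth := contDiff_const.mul h.smooth
  even := fun x => by simp only [h.even]
  supp := fun x hx => by simp only [h.supp x hx, mul_zero]

lemma ct_smul (K : ℝ → ℝ) (c x : ℝ) : ct (fun α => c * K α) x = c * ct K x := by
  unfold ct
  rw [← integral_const_mul]
  refine integral_congr_ae (Eventually.of_forall fun α => ?_)
  show c * K α * _ = _
  ring

/-- the derivative of the transform -/
noncomputable def dct (K : ℝ → ℝ) (y : ℝ) : ℝ :=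
  ∫ α, K α * (-Real.sin (2 * π * y * α) * (2 * π * α))

lemma ct_deriv (hK : TK κ K) (y : ℝ) : HasDerivAt (ct K) (dct K y) y := by
  unfold ct dct
  refine (hasDerivAt_integral_of_dominated_loc_of_deriv_le (μ := volume)
    (F := fun y α => K α * Real.cos (2 * π * y * α))
    (F' := fun y α => K α * (-Real.sin (2 * π * y * α) * (2 * π * α)))
    (bound := fun α => |K α| * (2 * π * |α|)) (Metric.ball_mem_nhds y one_pos)
    ?_ ?_ ?_ ?_ ?_ ?_).2
  · exact Eventually.of_forall fun x => (hK.mul_int (by fun_prop)).aestronglyMeasurable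
  · exact hK.mul_int (by fun_prop)
  · exact (hK.mul_int (by fun_prop)).aestronglyMeasurable
  · refine Eventually.of_forall fun α x _ => ?_
    rw [Real.norm_eq_abs, abs_mul, abs_mul, abs_neg, abs_mul, abs_of_pos (by positivity :
      (0 : ℝ) < 2 * π)]
    refine mul_le_mul_of_nonneg_left ?_ (abs_nonneg _)
    exact mul_le_of_le_one_left (by positivity) (Real.abs_sin_le_one _)
  · have := (hK.mul_int (f := fun α => 2 * π * |α|) (by fun_prop)).abs
    refine this.congr (Eventually.of_forall fun α => ?_)
    show |K α * (2 * π * |α|)| = |K α| * (2 * π * |α|)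
    rw [abs_mul, abs_of_nonneg (by positivity : (0 : ℝ) ≤ 2 * π * |α|)]
  · refine Eventually.of_forall fun α x _ => ?_
    have h1 : HasDerivAt (fun x : ℝ => 2 * π * x * α) (2 * π * α) x := by
      have := ((hasDerivAt_id x).const_mul (2 * π)).mul_const α
      simpa using this
    exact (h1.cos).const_mul _

lemma dct_bound (hK : TK κ K) (y : ℝ) : |dct K y| ≤ ∫ α, |K α| * (2 * π * |α|) := by
  unfold dct
  refine (abs_integral_le_integral_abs).trans ?_
  have hi : Integrable fun α => |K α| * (2 * π * |α|) := by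
    have := (hK.mul_int (f := fun α => 2 * π * |α|) (by fun_prop)).abs
    refine this.congr (Eventually.of_forall fun α => ?_)
    show |K α * (2 * π * |α|)| = |K α| * (2 * π * |α|)
    rw [abs_mul, abs_of_nonneg (by positivity : (0 : ℝ) ≤ 2 * π * |α|)]
  refine integral_mono_of_nonneg (Eventually.of_forall fun _ => abs_nonneg _) hi
    (Eventually.of_forall fun α => ?_)
  show |K α * (-Real.sin (2 * π * y * α) * (2 * π * α))| ≤ |K α| * (2 * π * |α|)
  rw [abs_mul, abs_mul, abs_neg, abs_mul, abs_of_pos (by positivity :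
    (0 : ℝ) < 2 * π)]
  refine mul_le_mul_of_nonneg_left ?_ (abs_nonneg _)
  exact mul_le_of_le_one_left (by positivity) (Real.abs_sin_le_one _)

lemma dct_cont (hK : TK κ K) : Continuous (dct K) := by
  unfold dct
  refine continuous_of_dominated (bound := fun α => |K α| * (2 * π * |α|)) ?_ ?_ ?_ ?_
  · exact fun x => (hK.mul_int (by fun_prop)).aestronglyMeasurable
  · refine fun x => Eventually.of_forall fun α => ?_
    rw [Real.norm_eq_abs, abs_mul, abs_mul, abs_neg, abs_mul, abs_of_pos (by positivity :
      (0 : ℝ) < 2 * π)]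
    refine mul_le_mul_of_nonneg_left ?_ (abs_nonneg _)
    exact mul_le_of_le_one_left (by positivity) (Real.abs_sin_le_one _)
  · have := (hK.mul_int (f := fun α => 2 * π * |α|) (by fun_prop)).abs
    refine this.congr (Eventually.of_forall fun α => ?_)
    show |K α * (2 * π * |α|)| = |K α| * (2 * π * |α|)
    rw [abs_mul, abs_of_nonneg (by positivity : (0 : ℝ) ≤ 2 * π * |α|)]
  · refine Eventually.of_forall fun α => ?_
    fun_prop

lemma dct_neg (K : ℝ → ℝ) (y : ℝ) : dct K (-y) = -dct K y := by
  unfold dct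
  rw [← integral_neg]
  refine integral_congr_ae (Eventually.of_forall fun α => ?_)
  show K α * (-Real.sin (2 * π * (-y) * α) * (2 * π * α)) =
    -(K α * (-Real.sin (2 * π * y * α) * (2 * π * α)))
  rw [show 2 * π * (-y) * α = -(2 * π * y * α) by ring, Real.sin_neg]
  ring

lemma abs_le_one_add_sq (y : ℝ) : |y| ≤ 1 + y ^ 2 := by
  rw [← sq_abs]
  nlinarith [sq_nonneg (|y| - 1), abs_nonneg y]

lemma dct_decay (n : ℕ) : ∀ {K : ℝ → ℝ}, TK κ K → ∃ C, 0 ≤ C ∧ ∀ y, |dct K y| ≤ C / (1 + y ^ 2) ^ n := by
  induction n with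
  | zero =>
    intro K hK
    refine ⟨∫ α, |K α| * (2 * π * |α|), integral_nonneg fun α => ?_, fun y => ?_⟩
    · have := Real.pi_pos
      show 0 ≤ |K α| * (2 * π * |α|)
      positivity
    · rw [pow_zero, div_one]
      exact dct_bound hK y
  | succ n ih =>
    intro K hK
    obtain ⟨K', hK', e⟩ := hK.one_add_sq_mul
    obtain ⟨C1, hC10, hC1⟩ := ih hK'
    obtain ⟨C2, hC20, hC2⟩ := hK.decay (n + 1)
    refine ⟨C1 + 2 * C2, by positivity, fun y => ?_⟩
    have h1 : HasDerivAt (fun y => (1 + y ^ 2) * ct K y)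
        (2 * y * ct K y + (1 + y ^ 2) * dct K y) y := by
      have h2 : HasDerivAt (fun y : ℝ => 1 + y ^ 2) (2 * y) y := by
        simpa using (hasDerivAt_pow 2 y).const_add 1
      exact h2.mul (ct_deriv hK y)
    have h2 : HasDerivAt (fun y => (1 + y ^ 2) * ct K y) (dct K' y) y := by
      have h3 := ct_deriv hK' y
      have e2 : ct K' = fun y => (1 + y ^ 2) * ct K y := funext fun y => (e y).symm
      rwa [e2] at h3
    have h3 := h1.unique h2
    have hp : 0 < 1 + y ^ 2 := by positivity
    have h4 : (1 + y ^ 2) * dct K y = dct K' y - 2 * y * ct K y := by linarith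
    rw [le_div_iff₀ (by positivity)]
    have h5 : |dct K y| * (1 + y ^ 2) ^ (n + 1) =
        |dct K' y - 2 * y * ct K y| * (1 + y ^ 2) ^ n := by
      rw [← h4, abs_mul, abs_of_pos hp, pow_succ]
      ring
    rw [h5]
    have h6 : |dct K' y| * (1 + y ^ 2) ^ n ≤ C1 := by
      have := hC1 y
      rwa [le_div_iff₀ (by positivity)] at this
    have h7 : |y| * |ct K y| * (1 + y ^ 2) ^ n ≤ C2 := by
      have h8 := hC2 y
      rw [le_div_iff₀ (by positivity), pow_succ] at h8
      refine le_trans ?_ h8
      have h9 := abs_le_one_add_sq y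
      calc |y| * |ct K y| * (1 + y ^ 2) ^ n ≤ (1 + y ^ 2) * |ct K y| * (1 + y ^ 2) ^ n := by
            gcongr
        _ = |ct K y| * ((1 + y ^ 2) ^ n * (1 + y ^ 2)) := by ring
    have h8 : |dct K' y - 2 * y * ct K y| ≤ |dct K' y| + 2 * (|y| * |ct K y|) := by
      refine (abs_sub _ _).trans (le_of_eq ?_)
      rw [abs_mul, abs_mul, abs_of_pos (by norm_num : (0 : ℝ) < 2)]
      ring
    calc |dct K' y - 2 * y * ct K y| * (1 + y ^ 2) ^ n ≤
          (|dct K' y| + 2 * (|y| * |ct K y|)) * (1 + y ^ 2) ^ n := by gcongr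
      _ = |dct K' y| * (1 + y ^ 2) ^ n + 2 * (|y| * |ct K y| * (1 + y ^ 2) ^ n) := by ring
      _ ≤ C1 + 2 * C2 := by linarith

/-- Fourier inversion for the test functions -/
lemma ct_inv (hK : TK κ K) (β : ℝ) : ∫ x, ct K x * Real.cos (2 * π * x * β) = K β := by
  have hz : ∀ x, |κ| + 1 ≤ |x| → K x = 0 := fun x hx => hK.supp x (by
    have := le_abs_self κ
    linarith)
  have hRR : ∀ x, H370.A2.RR K (|κ| + 1) x = ct K x := by
    intro x
    unfold H370.A2.RR ct
    rw [intervalIntegral.integral_eq_integral_of_support_subset]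
    · refine integral_congr_ae (Eventually.of_forall fun α => ?_)
      show K α * Real.cos (2 * π * α * x) = K α * Real.cos (2 * π * x * α)
      congr 2
      ring
    · intro α hα
      by_contra h
      apply hα
      show K α * _ = 0
      rw [hz α, zero_mul]
      by_contra h2
      push Not at h2
      obtain ⟨h3, h4⟩ := abs_lt.1 h2
      exact h ⟨by linarith, by linarith⟩
  obtain ⟨D, hD0, hD⟩ := hK.decay 1
  have h1 := H370.A2.RR_inv (ψ := K) (μ := |κ| + 1) (C := D) hK.cont hz (fun x => by
    rw [hRR]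
    have h2 := hD x
    rw [pow_one, le_div_iff₀ (by positivity)] at h2
    nlinarith [abs_nonneg (ct K x)]) β
  simp_rw [hRR] at h1
  rw [h1]
  unfold H370.A2.evp
  rw [hK.even]
  ring

lemma ct_int (hK : TK κ K) : Integrable (ct K) := by
  obtain ⟨D, hD0, hD⟩ := hK.decay 1
  refine (integrable_inv_one_add_sq.const_mul D).mono' hK.ct_cont.aestronglyMeasurable
    (Eventually.of_forall fun y => ?_)
  have := hD y
  rw [pow_one, div_eq_mul_inv] at this
  exact this

/-- the predicted pair sum -/
lemma gue_id (hK : TK κ K) :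
    ct K 0 + ∫ y, ct K y * gd y = K 0 + ∫ α, K α * min |α| 1 := by
  have hi := ct_int hK
  have hpi := Real.pi_pos
  have e0 : ∫ x, ct K x = K 0 := by
    have := ct_inv hK 0
    simpa using this
  have e1 : ct K 0 = ∫ α, K α := by
    unfold ct
    simp
  have hK1 : ∫ x, ct K x * Real.sinc (π * x) ^ 2 =
      ∫ β in (-1 : ℝ)..1, (1 - |β|) * K β := by
    have h1 : ∫ x, ct K x * Real.sinc (π * x) ^ 2 =
        ∫ x, ∫ β in Set.Ioc (-1 : ℝ) 1, ct K x * ((1 - |β|) * Real.cos (2 * Real.pi * x * β)) := by
      refine integral_congr_ae ?_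
      have h0 : ∀ᵐ x : ℝ, x ≠ 0 := by
        rw [ae_iff]
        simp
      filter_upwards [h0] with x hx
      rw [Real.sinc_of_ne_zero (by positivity), ← H370.A2.fejer hx,
        intervalIntegral.integral_of_le (by norm_num), integral_const_mul]
    have hint : Integrable (Function.uncurry fun x β : ℝ =>
        ct K x * ((1 - |β|) * Real.cos (2 * Real.pi * x * β)))
        (volume.prod (volume.restrict (Set.Ioc (-1 : ℝ) 1))) := by
      have hc1 : Integrable (fun β : ℝ => 1 - |β|) (volume.restrict (Set.Ioc (-1 : ℝ) 1)) :=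
        ((by fun_prop : Continuous fun β : ℝ => 1 - |β|).integrableOn_Icc).mono_set
          Set.Ioc_subset_Icc_self
      refine (hi.norm.mul_prod hc1.norm).mono' ?_ (Filter.Eventually.of_forall fun z => ?_)
      · apply Continuous.aestronglyMeasurable
        have := hK.ct_cont
        unfold Function.uncurry
        fun_prop
      · simp only [Function.uncurry]
        rw [norm_mul, norm_mul]
        have := Real.abs_cos_le_one (2 * Real.pi * z.1 * z.2)
        rw [← Real.norm_eq_abs] at this
        calc ‖ct K z.1‖ * (‖1 - |z.2|‖ * ‖Real.cos (2 * Real.pi * z.1 * z.2)‖) ≤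
            ‖ct K z.1‖ * (‖1 - |z.2|‖ * 1) := by gcongr
          _ = _ := by ring
    rw [h1, integral_integral_swap hint, intervalIntegral.integral_of_le (by norm_num)]
    refine integral_congr_ae (Filter.Eventually.of_forall fun β => ?_)
    show ∫ x, ct K x * ((1 - |β|) * Real.cos (2 * Real.pi * x * β)) = (1 - |β|) * K β
    rw [← ct_inv hK β, ← integral_const_mul]
    refine integral_congr_ae (Filter.Eventually.of_forall fun x => ?_)
    show ct K x * ((1 - |β|) * Real.cos (2 * Real.pi * x * β)) = _
    ring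
  have hsi : Integrable fun x => ct K x * Real.sinc (π * x) ^ 2 := by
    refine hi.norm.mono' (hK.ct_cont.mul
      ((Real.continuous_sinc.comp (by fun_prop)).pow 2)).aestronglyMeasurable
      (Eventually.of_forall fun x => ?_)
    rw [norm_mul, norm_pow]
    have h2 : ‖Real.sinc (π * x)‖ ^ 2 ≤ 1 := pow_le_one₀ (norm_nonneg _) (by
      rw [Real.norm_eq_abs]
      exact Real.abs_sinc_le_one _)
    exact mul_le_of_le_one_right (norm_nonneg _) h2
  have e2 : ∫ y, ct K y * gd y = K 0 - ∫ β in (-1 : ℝ)..1, (1 - |β|) * K β := by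
    rw [← e0, ← hK1, ← integral_sub hi hsi]
    refine integral_congr_ae (Eventually.of_forall fun x => ?_)
    show ct K x * gd x = ct K x - ct K x * Real.sinc (π * x) ^ 2
    unfold gd
    ring
  have e3 : ∫ β in (-1 : ℝ)..1, (1 - |β|) * K β = ∫ β, K β * max (1 - |β|) 0 := by
    rw [← intervalIntegral.integral_eq_integral_of_support_subset (a := -1) (b := 1)]
    · refine intervalIntegral.integral_congr fun β hβ => ?_
      rw [Set.uIcc_of_le (by norm_num)] at hβ
      show (1 - |β|) * K β = K β * max (1 - |β|) 0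
      rw [max_eq_left (by
        have := abs_le.2 hβ
        linarith)]
      ring
    · intro β hβ
      by_contra h
      apply hβ
      show K β * max (1 - |β|) 0 = 0
      rw [max_eq_right, mul_zero]
      by_contra h2
      push Not at h2
      have h3 : |β| < 1 := by linarith
      obtain ⟨h4, h5⟩ := abs_lt.1 h3
      exact h ⟨h4, h5.le⟩
  have e4 : ∫ α, K α * min |α| 1 = (∫ α, K α) - ∫ β, K β * max (1 - |β|) 0 := by
    rw [← integral_sub hK.integrable (hK.mul_int (by fun_prop))]
    refine integral_congr_ae (Eventually.of_forall fun x => ?_)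
    show K x * min |x| 1 = K x - K x * max (1 - |x|) 0
    rcases le_total |x| 1 with h | h
    · rw [min_eq_left h, max_eq_left (by linarith)]
      ring
    · rw [min_eq_right h, max_eq_right (by linarith)]
      ring
  rw [e1, e2, e3, e4]
  ring

/-- windows of the test function -/
noncomputable def bx (ℓ : ℝ) (K : ℝ → ℝ) (x : ℝ) : ℝ := ∫ t in (x - ℓ / 2)..(x + ℓ / 2), K t

lemma bx_deriv (hK : Continuous K) (ℓ x : ℝ) :
    HasDerivAt (bx ℓ K) (K (x + ℓ / 2) - K (x - ℓ / 2)) x := by
  set P : ℝ → ℝ := fun x => ∫ u in (0 : ℝ)..x, K u with hP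
  have hPd : ∀ x, HasDerivAt P (K x) x := fun x =>
    intervalIntegral.integral_hasDerivAt_right (hK.intervalIntegrable _ _)
      (hK.stronglyMeasurableAtFilter _ _) hK.continuousAt
  have e : bx ℓ K = fun y => P (y + ℓ / 2) - P (y - ℓ / 2) := by
    funext y
    exact (intervalIntegral.integral_interval_sub_left (hK.intervalIntegrable _ _)
      (hK.intervalIntegrable _ _)).symm
  rw [e]
  have h1 : HasDerivAt (fun y => P (y + ℓ / 2)) (K (x + ℓ / 2)) x :=
    (hPd (x + ℓ / 2)).comp_add_const x _
  have h2 : HasDerivAt (fun y => P (y - ℓ / 2)) (K (x - ℓ / 2)) x :=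
    (hPd (x - ℓ / 2)).comp_sub_const x _
  exact h1.sub h2

lemma bx_TK (hK : TK κ K) (hℓ : 0 < ℓ) : TK (κ + ℓ / 2) (bx ℓ K) where
  smooth := by
    rw [contDiff_infty_iff_deriv]
    refine ⟨fun x => (bx_deriv hK.cont ℓ x).differentiableAt, ?_⟩
    have e : deriv (bx ℓ K) = fun x => K (x + ℓ / 2) - K (x - ℓ / 2) :=
      funext fun x => (bx_deriv hK.cont ℓ x).deriv
    rw [e]
    have := hK.smooth
    fun_prop
  even := fun x => by
    unfold bx
    have h1 : ∫ u in (x - ℓ / 2)..(x + ℓ / 2), K (-u) =
        ∫ u in (-(x + ℓ / 2))..(-(x - ℓ / 2)), K u := intervalIntegral.integral_comp_neg _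
    have h2 : ∫ u in (x - ℓ / 2)..(x + ℓ / 2), K (-u) = ∫ u in (x - ℓ / 2)..(x + ℓ / 2), K u :=
      intervalIntegral.integral_congr fun u _ => hK.even u
    rw [h2] at h1
    rw [h1]
    congr 1 <;> ring
  supp := fun x hx => by
    unfold bx
    rw [intervalIntegral.integral_congr (g := fun _ => (0 : ℝ)), intervalIntegral.integral_zero]
    intro t ht
    rw [Set.uIcc_of_le (by linarith)] at ht
    refine hK.supp t ?_
    have h1 : |x - t| ≤ ℓ / 2 := by
      rw [abs_le]
      constructor <;> linarith [ht.1, ht.2]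
    have := abs_sub_abs_le_abs_sub x t
    linarith

lemma sinc_mul_cos (ℓ u : ℝ) : ∫ s in (-(ℓ / 2))..(ℓ / 2), Real.cos (2 * π * u * s) =
    ℓ * Real.sinc (π * ℓ * u) := by
  have h1 := inner_cos (ℓ / 2) 0 u
  rw [zero_sub, zero_add] at h1
  have e : ∫ s in (-(ℓ / 2))..(ℓ / 2), Real.cos (2 * π * u * s) =
      ∫ s in (-(ℓ / 2))..(ℓ / 2), Real.cos (2 * π * s * u) := by
    refine intervalIntegral.integral_congr fun s _ => ?_
    show Real.cos (2 * π * u * s) = Real.cos (2 * π * s * u)
    congr 1
    ring
  rw [e, h1]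
  simp only [mul_zero, zero_mul, Real.cos_zero, mul_one]
  rw [show 2 * (ℓ / 2) = ℓ by ring, show 2 * π * (ℓ / 2) * u = π * ℓ * u by ring]

lemma ct_bx (hK : TK κ K) (hℓ : 0 < ℓ) (u : ℝ) :
    ct (bx ℓ K) u = ℓ * Real.sinc (π * ℓ * u) * ct K u := by
  have e1 : ∀ x, bx ℓ K x = ∫ s in Set.Ioc (-(ℓ / 2)) (ℓ / 2), K (x + s) := by
    intro x
    unfold bx
    rw [← intervalIntegral.integral_of_le (by linarith),
      intervalIntegral.integral_comp_add_left (fun s => K s) x]
    rw [← sub_eq_add_neg]
  have hint : Integrable (Function.uncurry fun x s : ℝ => K (x + s) * Real.cos (2 * π * u * x))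
      (volume.prod (volume.restrict (Set.Ioc (-(ℓ / 2)) (ℓ / 2)))) := by
    obtain ⟨M, hM⟩ := hK.hcs.exists_bound_of_continuous hK.cont
    have hM0 : 0 ≤ M := (norm_nonneg _).trans (hM 0)
    have hc : Continuous (Function.uncurry fun x s : ℝ => K (x + s) * Real.cos (2 * π * u * x)) := by
      have := hK.cont
      unfold Function.uncurry
      fun_prop
    have h1 : Integrable (fun x : ℝ => (Set.Icc (-(κ + ℓ / 2)) (κ + ℓ / 2)).indicator
        (fun _ => M) x) := by
      refine (integrable_indicator_iff measurableSet_Icc).2 ?_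
      exact integrableOn_const (by simp) (by simp)
    have h2 : Integrable (fun _ : ℝ => (1 : ℝ))
        (volume.restrict (Set.Ioc (-(ℓ / 2)) (ℓ / 2))) := integrable_const _
    refine (h1.mul_prod h2).mono' hc.aestronglyMeasurable ?_
    have h3 : ∀ᵐ z : ℝ × ℝ ∂(volume.prod (volume.restrict (Set.Ioc (-(ℓ / 2)) (ℓ / 2)))),
        z.2 ∈ Set.Ioc (-(ℓ / 2)) (ℓ / 2) := by
      have : ∀ᵐ s : ℝ ∂(volume.restrict (Set.Ioc (-(ℓ / 2)) (ℓ / 2))),
          s ∈ Set.Ioc (-(ℓ / 2)) (ℓ / 2) := ae_restrict_mem measurableSet_Ioc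
      exact Measure.quasiMeasurePreserving_snd.ae this
    filter_upwards [h3] with z hz
    simp only [Function.uncurry]
    rw [mul_one]
    by_cases hx : z.1 ∈ Set.Icc (-(κ + ℓ / 2)) (κ + ℓ / 2)
    · rw [Set.indicator_of_mem hx, norm_mul]
      calc ‖K (z.1 + z.2)‖ * ‖Real.cos (2 * π * u * z.1)‖ ≤ M * 1 := by
            refine mul_le_mul (hM _) ?_ (norm_nonneg _) hM0
            rw [Real.norm_eq_abs]
            exact Real.abs_cos_le_one _
        _ = M := mul_one M
    · rw [Set.indicator_of_notMem hx, hK.supp, zero_mul, norm_zero]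
      have h4 : κ + ℓ / 2 < |z.1| := by
        by_contra h5
        exact hx (abs_le.1 (not_lt.1 h5))
      have h5 : |z.2| ≤ ℓ / 2 := abs_le.2 ⟨hz.1.le, hz.2⟩
      have h6 := abs_sub_abs_le_abs_sub z.1 (-z.2)
      rw [abs_neg, sub_neg_eq_add] at h6
      linarith
  have e2 : ct (bx ℓ K) u = ∫ x, ∫ s in Set.Ioc (-(ℓ / 2)) (ℓ / 2),
      K (x + s) * Real.cos (2 * π * u * x) := by
    unfold ct
    refine integral_congr_ae (Eventually.of_forall fun x => ?_)
    show bx ℓ K x * Real.cos (2 * π * u * x) = _
    rw [e1, ← integral_mul_const]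
  rw [e2, integral_integral_swap hint]
  have e3 : ∀ s : ℝ, ∫ x, K (x + s) * Real.cos (2 * π * u * x) =
      ct K u * Real.cos (2 * π * u * s) := by
    intro s
    have h1 := integral_add_right_eq_self (μ := volume)
      (fun x => K x * Real.cos (2 * π * u * (x - s))) s
    have h2 : ∫ x, K (x + s) * Real.cos (2 * π * u * x) =
        ∫ x, K (x + s) * Real.cos (2 * π * u * (x + s - s)) := by
      simp only [add_sub_cancel_right]
    rw [h2, h1]
    have h3 : ∀ x, K x * Real.cos (2 * π * u * (x - s)) =
        K x * Real.cos (2 * π * u * x) * Real.cos (2 * π * u * s) +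
        K x * Real.sin (2 * π * u * x) * Real.sin (2 * π * u * s) := by
      intro x
      rw [mul_sub, Real.cos_sub]
      ring
    simp_rw [h3]
    rw [integral_add ((hK.mul_int (by fun_prop)).mul_const _)
      ((hK.mul_int (by fun_prop)).mul_const _), integral_mul_const, integral_mul_const,
      hK.sin_zero]
    unfold ct
    ring
  simp_rw [e3]
  rw [integral_const_mul, ← intervalIntegral.integral_of_le (by linarith), sinc_mul_cos]
  ring

end Pool.Agent.H7.FF
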