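import Pool.Agent.H7.FF.Lam
import Pool.Graph.R_seed8.Results.MP_103a5c_nt.LongAverages

/-! Montgomery's function and its limits. -/

open MeasureTheory Filter Topology Real
open scoped ContDiff

namespace Pool.Agent.H7.FF

open Pool.Agent.Y744 Pool.Agent.Y744.ANC Pool.Agent.Results.MP_103a5c_nt

/-- real part of Montgomery's function -/
noncomputable def FR (T α : ℝ) : ℝ := (LongAverages.F α T).re

/-- Montgomery's weight -/
noncomputable def Wm (u : ℝ) : ℝ := 4 / (4 + u ^ 2)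

lemma FR_eq {T : ℝ} (hT : 0 < T) (α : ℝ) : FR T α = (Xf T)⁻¹ * ∑ s ∈ Zt T, ∑ s' ∈ Zt T,
    mz s * mz s' * Wm (s.im - s'.im) * Real.cos (2 * π * dd T s s' * α) := by
  classical
  have hpi := Real.pi_pos
  unfold FR LongAverages.F
  rw [← Complex.ofReal_inv, Complex.re_ofReal_mul]
  have e0 : (T / (2 * Real.pi) * Real.log T)⁻¹ = (Xf T)⁻¹ := by
    unfold Xf
    congr 1
    ring
  rw [e0]
  congr 1
  rw [finsum_mem_eq_finite_toFinset_sum _ (LongAverages.zeros_finite T), Complex.re_sum]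
  have hZ : (LongAverages.zeros_finite T).toFinset = Zt T := rfl
  rw [hZ]
  refine Finset.sum_congr rfl fun s _ => ?_
  rw [finsum_mem_eq_finite_toFinset_sum _ (LongAverages.zeros_finite T), Complex.re_sum, hZ]
  refine Finset.sum_congr rfl fun s' _ => ?_
  have h := LongAverages.re_term T α (s.im - s'.im) (LongAverages.mult s) (LongAverages.mult s') hT
  have e1 : 2 * π * dd T s s' * α = Real.log T * (s.im - s'.im) * α := by
    unfold dd
    field_simp
  have e2 : mz s = (LongAverages.mult s : ℝ) := rfl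
  have e3 : mz s' = (LongAverages.mult s' : ℝ) := rfl
  have e4 : Wm (s.im - s'.im) = LongAverages.W (s.im - s'.im) := rfl
  rw [e1, e2, e3, e4]
  exact_mod_cast h

lemma FR_cont {T : ℝ} (hT : 0 < T) : Continuous (FR T) := by
  have : FR T = fun α => (Xf T)⁻¹ * ∑ s ∈ Zt T, ∑ s' ∈ Zt T,
    mz s * mz s' * Wm (s.im - s'.im) * Real.cos (2 * π * dd T s s' * α) := funext (FR_eq hT)
  rw [this]
  fun_prop

lemma FR_even {T : ℝ} (hT : 0 < T) (α : ℝ) : FR T (-α) = FR T α := by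
  rw [FR_eq hT, FR_eq hT]
  congr 1
  refine Finset.sum_congr rfl fun s _ => Finset.sum_congr rfl fun s' _ => ?_
  congr 1
  rw [mul_neg, Real.cos_neg]

lemma FR_nonneg (RH : RiemannHypothesis) {T : ℝ} (hT : 1 < T) (α : ℝ) : 0 ≤ FR T α :=
  (LongAverages.F_im RH α T hT).2

/-- the primitive -/
noncomputable def CT (T x : ℝ) : ℝ := ∫ α in (0 : ℝ)..x, FR T α

lemma CT_deriv {T : ℝ} (hT : 0 < T) (x : ℝ) : HasDerivAt (CT T) (FR T x) x :=
  intervalIntegral.integral_hasDerivAt_right ((FR_cont hT).intervalIntegrable _ _)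
    ((FR_cont hT).stronglyMeasurableAtFilter _ _) (FR_cont hT).continuousAt

lemma CT_sub {T : ℝ} (hT : 0 < T) (a b : ℝ) : CT T b - CT T a = ∫ α in a..b, FR T α :=
  intervalIntegral.integral_interval_sub_left ((FR_cont hT).intervalIntegrable _ _)
    ((FR_cont hT).intervalIntegrable _ _)

lemma CT_mono (RH : RiemannHypothesis) {T : ℝ} (hT : 1 < T) : Monotone (CT T) := by
  intro a b hab
  have h1 := CT_sub (T := T) (by linarith) a b
  have h2 : 0 ≤ ∫ α in a..b, FR T α :=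
    intervalIntegral.integral_nonneg hab fun α _ => FR_nonneg RH hT α
  linarith

lemma CT_odd {T : ℝ} (hT : 0 < T) (x : ℝ) : CT T (-x) = -CT T x := by
  unfold CT
  have h1 : ∫ u in (0 : ℝ)..x, FR T (-u) = ∫ u in (-x)..(-0), FR T u :=
    intervalIntegral.integral_comp_neg _
  have h2 : ∫ u in (0 : ℝ)..x, FR T (-u) = ∫ u in (0 : ℝ)..x, FR T u :=
    intervalIntegral.integral_congr fun u _ => FR_even hT u
  rw [h2, neg_zero] at h1
  rw [intervalIntegral.integral_symm, h1]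

lemma CT_bound (RH : RiemannHypothesis) : ∃ C0 T0 : ℝ, 20 ≤ T0 ∧ ∀ T : ℝ, T0 ≤ T → ∀ y,
    |CT T y| ≤ C0 * (1 + y ^ 2) := by
  obtain ⟨l0, K, T1, hK, h⟩ := LongAverages.result RH
  refine ⟨2 * (1 + |l0|), max 20 T1, le_max_left _ _, fun T hT y => ?_⟩
  have hT20 : 20 ≤ T := (le_max_left _ _).trans hT
  have hT1 : T1 ≤ T := (le_max_right _ _).trans hT
  have key : ∀ y, 0 ≤ y → |CT T y| ≤ 2 * (1 + |l0|) * (1 + y ^ 2) := by
    intro y hy
    have hmono := CT_mono RH (T := T) (by linarith)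
    have h0 : CT T 0 = 0 := by
      unfold CT
      simp
    have h1 : 0 ≤ CT T y := by
      have := hmono hy
      rwa [h0] at this
    rw [abs_of_nonneg h1]
    have h2 := ((h T hT1).2 0 (y + |l0|) (by
      have := le_abs_self l0
      linarith)).2.1
    have h3 : CT T (y + |l0|) ≤ 1306 / 1000 * (y + |l0|) := by
      unfold CT FR
      rwa [zero_add] at h2
    have h4 := hmono (show y ≤ y + |l0| by
      have := abs_nonneg l0
      linarith)
    have h5 : 0 ≤ |l0| := abs_nonneg _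
    have h6 : y ≤ 1 + y ^ 2 := by nlinarith [sq_nonneg (y - 1)]
    nlinarith [mul_nonneg h5 (sq_nonneg y)]
  rcases le_total 0 y with h1 | h1
  · exact key y h1
  · have h2 := key (-y) (by linarith)
    rwa [CT_odd (by linarith), abs_neg, neg_sq] at h2

variable {κ ℓ : ℝ} {K : ℝ → ℝ} {A A' C' : ℝ → ℝ} {C0 : ℝ}

lemma FR_int {T : ℝ} (hT : 0 < T) (hK : TK κ K) : ∫ α, K α * FR T α =
    (Xf T)⁻¹ * ∑ s ∈ Zt T, ∑ s' ∈ Zt T, mz s * mz s' * Wm (s.im - s'.im) * ct K (dd T s s') := by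
  have e1 : ∀ α, K α * FR T α = (Xf T)⁻¹ * ∑ s ∈ Zt T, ∑ s' ∈ Zt T,
      mz s * mz s' * Wm (s.im - s'.im) * (K α * Real.cos (2 * π * dd T s s' * α)) := by
    intro α
    rw [FR_eq hT, mul_left_comm, Finset.mul_sum]
    congr 1
    refine Finset.sum_congr rfl fun s _ => ?_
    rw [Finset.mul_sum]
    refine Finset.sum_congr rfl fun s' _ => ?_
    ring
  simp_rw [e1]
  have hi : ∀ c : ℝ, Integrable fun α => K α * Real.cos (2 * π * c * α) := fun c =>
    hK.mul_int (by fun_prop)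
  rw [integral_const_mul, integral_finsetSum _ fun s _ => integrable_finsetSum _ fun s' _ =>
    (hi _).const_mul _]
  congr 1
  refine Finset.sum_congr rfl fun s _ => ?_
  rw [integral_finsetSum _ fun s' _ => (hi _).const_mul _]
  refine Finset.sum_congr rfl fun s' _ => ?_
  rw [integral_const_mul]
  rfl

/-- bound for the pair sums -/
lemma sum_bd (RH : RiemannHypothesis) : ∃ C2 T0 : ℝ, 0 ≤ C2 ∧ 20 ≤ T0 ∧ ∀ T : ℝ, T0 ≤ T →
    ∀ (f : ℝ → ℝ) (B : ℝ), (∀ u, |f u| ≤ B / (1 + u ^ 2)) →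
    (Xf T)⁻¹ * ∑ s ∈ Zt T, ∑ s' ∈ Zt T, mz s * mz s' * |f (dd T s s')| ≤ B * C2 := by
  obtain ⟨C, B0, V0, hC, hB0, hV0, hblk, hloc⟩ := PP_bound RH
  have hpi := Real.pi_pos
  refine ⟨3200 * (B0 + C) * (2 * π), V0, by positivity, hV0, fun T hT f B hf => ?_⟩
  have hB : 0 ≤ B := by
    have := (abs_nonneg _).trans (hf 0)
    simpa using this
  have hT20 : 20 ≤ T := hV0.trans hT
  have hX := Xf_pos (V := T) (by linarith)
  have hL1 : 1 ≤ Real.log T := by
    rw [Real.le_log_iff_exp_le (by linarith)]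
    linarith [Real.exp_one_lt_d9]
  rw [inv_mul_le_iff₀ hX]
  have h2 := QS_abs_bound (x := fun s : ℂ => s.im) (Zt T) (Zt T) mz_nonneg
    (f := f) (K := B) hf (Λ := Real.log T) (by linarith) one_pos
  have h3 := hloc T hT (Real.log T) le_rfl
  have h4 : B0 ≤ B0 * (T * Real.log T) := by
    have : 1 ≤ T * Real.log T := by nlinarith
    nlinarith
  refine h2.trans ?_
  have h5 : 1600 * B * (1 * TH803TW.PP1 (Zt T) mz (fun s => s.im) (Real.log T) +
      1 / 1 * TH803TW.PP1 (Zt T) mz (fun s => s.im) (Real.log T)) ≤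
      1600 * B * (2 * ((B0 + C) * (T * Real.log T))) := by
    refine mul_le_mul_of_nonneg_left ?_ (by positivity)
    rw [one_mul, div_one, one_mul]
    linarith
  refine h5.trans (le_of_eq ?_)
  unfold Xf
  field_simp
  ring

/-- the weight is negligible -/
lemma FR_Lam (RH : RiemannHypothesis) (hK : TK κ K) :
    Tendsto (fun T => (∫ α, K α * FR T α) - Lam (Aa T) K) atTop (𝓝 0) := by
  obtain ⟨C2, T0, hC2, hT0, hbd⟩ := sum_bd RH
  have hpi := Real.pi_pos
  obtain ⟨D, hD0, hD⟩ := hK.D_TK.decay 1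
  have hlim : Tendsto (fun T : ℝ => π ^ 2 * (D * C2) * ((Real.log T)⁻¹ * (Real.log T)⁻¹)) atTop
      (𝓝 (π ^ 2 * (D * C2) * (0 * 0))) := by
    have h1 : Tendsto (fun T : ℝ => (Real.log T)⁻¹) atTop (𝓝 0) :=
      tendsto_inv_atTop_zero.comp Real.tendsto_log_atTop
    exact (h1.mul h1).const_mul _
  rw [mul_zero, mul_zero] at hlim
  refine squeeze_zero_norm' ?_ hlim
  filter_upwards [eventually_ge_atTop T0] with T hT
  have hT20 : 20 ≤ T := hT0.trans hT
  have hX := Xf_pos (V := T) (by linarith)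
  have hL1 : 1 ≤ Real.log T := by
    rw [Real.le_log_iff_exp_le (by linarith)]
    linarith [Real.exp_one_lt_d9]
  have h1 := hbd T hT (fun u => u ^ 2 * ct K u) D (fun u => by
    show |u ^ 2 * ct K u| ≤ _
    rw [hK.sq_mul_ct]
    have := hD u
    rwa [pow_one] at this)
  rw [FR_int (by linarith) hK, Lam_Aa hK, ← mul_sub]
  unfold Q2 QS
  rw [← Finset.sum_sub_distrib, Real.norm_eq_abs, abs_mul, abs_of_pos (inv_pos.2 hX)]
  have h2 : |∑ s ∈ Zt T, ((∑ s' ∈ Zt T, mz s * mz s' * Wm (s.im - s'.im) * ct K (dd T s s')) -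
      ∑ s' ∈ Zt T, mz s * mz s' * ct K ((s.im - s'.im) * Real.log T / (2 * π)))| ≤
      (π ^ 2 * ((Real.log T)⁻¹ * (Real.log T)⁻¹)) * ∑ s ∈ Zt T, ∑ s' ∈ Zt T,
        mz s * mz s' * |(dd T s s') ^ 2 * ct K (dd T s s')| := by
    rw [Finset.mul_sum]
    refine (Finset.abs_sum_le_sum_abs _ _).trans (Finset.sum_le_sum fun s _ => ?_)
    rw [← Finset.sum_sub_distrib, Finset.mul_sum]
    refine (Finset.abs_sum_le_sum_abs _ _).trans (Finset.sum_le_sum fun s' _ => ?_)
    have hm : 0 ≤ mz s * mz s' := mul_nonneg (mz_nonneg _) (mz_nonneg _)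
    have e1 : mz s * mz s' * Wm (s.im - s'.im) * ct K (dd T s s') -
        mz s * mz s' * ct K ((s.im - s'.im) * Real.log T / (2 * π)) =
        mz s * mz s' * ((Wm (s.im - s'.im) - 1) * ct K (dd T s s')) := by
      show _ - mz s * mz s' * ct K (dd T s s') = _
      ring
    rw [e1, abs_mul, abs_of_nonneg hm, mul_left_comm (π ^ 2 * _)]
    refine mul_le_mul_of_nonneg_left ?_ hm
    rw [abs_mul, abs_mul, ← mul_assoc]
    refine mul_le_mul_of_nonneg_right ?_ (abs_nonneg _)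
    set v := s.im - s'.im with hv
    have e2 : Wm v - 1 = -(v ^ 2 / (4 + v ^ 2)) := by
      unfold Wm
      field_simp
      ring
    have e3 : (π ^ 2 * ((Real.log T)⁻¹ * (Real.log T)⁻¹)) * |dd T s s' ^ 2| = v ^ 2 / 4 := by
      rw [abs_of_nonneg (sq_nonneg _)]
      unfold dd
      rw [← hv]
      have hL0 : Real.log T ≠ 0 := by linarith
      field_simp
      norm_num
    rw [e2, e3, abs_neg, abs_of_nonneg (by positivity)]
    exact div_le_div_of_nonneg_left (sq_nonneg _) (by norm_num) (by nlinarith [sq_nonneg v])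
  calc (Xf T)⁻¹ * |∑ s ∈ Zt T, ((∑ s' ∈ Zt T, mz s * mz s' * Wm (s.im - s'.im) *
        ct K (dd T s s')) -
      ∑ s' ∈ Zt T, mz s * mz s' * ct K ((s.im - s'.im) * Real.log T / (2 * π)))| ≤
      (Xf T)⁻¹ * ((π ^ 2 * ((Real.log T)⁻¹ * (Real.log T)⁻¹)) * ∑ s ∈ Zt T, ∑ s' ∈ Zt T,
        mz s * mz s' * |(dd T s s') ^ 2 * ct K (dd T s s')|) :=
        mul_le_mul_of_nonneg_left h2 (inv_pos.2 hX).le
    _ = (π ^ 2 * ((Real.log T)⁻¹ * (Real.log T)⁻¹)) * ((Xf T)⁻¹ * ∑ s ∈ Zt T, ∑ s' ∈ Zt T,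
        mz s * mz s' * |(dd T s s') ^ 2 * ct K (dd T s s')|) := by ring
    _ ≤ (π ^ 2 * ((Real.log T)⁻¹ * (Real.log T)⁻¹)) * (D * C2) :=
        mul_le_mul_of_nonneg_left h1 (by positivity)
    _ = π ^ 2 * (D * C2) * ((Real.log T)⁻¹ * (Real.log T)⁻¹) := by ring

/-- integration by parts -/
lemma parts (hK : TK κ K) {G G' : ℝ → ℝ} (hG : ∀ x, HasDerivAt G (G' x) x) (hG' : Continuous G') :
    ∫ α, K α * G' α = -∫ x, G x * deriv K x := by
  have hd : Differentiable ℝ K := hK.smooth.differentiable (by simp)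
  have hc' : Continuous (deriv K) := (TK.deriv_smooth hK.smooth).continuous
  have hcs' : HasCompactSupport (deriv K) := hK.hcs.deriv
  have hGc : Continuous G := continuous_iff_continuousAt.2 fun x => (hG x).continuousAt
  have := integral_mul_deriv_eq_deriv_mul_of_integrable (u := K) (v := G) (u' := deriv K)
    (v' := G') (fun x _ => (hd x).hasDerivAt) (fun x _ => hG x) (hK.mul_int hG')
    ((hc'.mul hGc).integrable_of_hasCompactSupport hcs'.mul_right) (hK.mul_int hGc)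
  rw [this]
  congr 1
  refine integral_congr_ae (Eventually.of_forall fun x => ?_)
  show deriv K x * G x = G x * deriv K x
  ring

lemma cs_decay {f : ℝ → ℝ} (hf : Continuous f) {R : ℝ} (hR : ∀ x, R < |x| → f x = 0) :
    ∃ D, ∀ y, |f y| ≤ D / (1 + y ^ 2) ^ 2 := by
  have hcs : HasCompactSupport fun y => (1 + y ^ 2) ^ 2 * f y := by
    refine HasCompactSupport.intro (isCompact_Icc (a := -R) (b := R)) fun x hx => ?_
    rw [hR x, mul_zero]
    by_contra hc
    exact hx (abs_le.1 (not_lt.1 hc))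
  obtain ⟨M, hM⟩ := hcs.exists_bound_of_continuous
    (((continuous_const.add (continuous_pow 2)).pow 2).mul hf)
  refine ⟨M, fun y => ?_⟩
  have h1 := hM y
  rw [Real.norm_eq_abs, abs_mul, abs_of_nonneg (by positivity)] at h1
  rw [le_div_iff₀ (by positivity)]
  linarith

/-- the limits of the primitive of Montgomery's function -/
lemma exists_C (RH : RiemannHypothesis) (g : Ultrafilter ℝ) (hgt : (g : Filter ℝ) ≤ atTop) :
    ∃ (C' : ℝ → ℝ) (C0 : ℝ), Monotone C' ∧ (∀ y, |C' y| ≤ C0 * (1 + y ^ 2)) ∧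
      (∀ y, C' (-y) = -C' y) ∧
      (∀ y, Tendsto (fun T => CT T y) (g : Filter ℝ) (𝓝 (C' y))) := by
  obtain ⟨C0, T0, hT0, hb⟩ := CT_bound RH
  have hT : ∀ᶠ T in (g : Filter ℝ), T0 ≤ T := hgt (eventually_ge_atTop _)
  have hex : ∀ y, ∃ L, Tendsto (fun T => CT T y) (g : Filter ℝ) (𝓝 L) := by
    intro y
    have h1 : ((g.map fun T => CT T y : Ultrafilter ℝ) : Filter ℝ) ≤
        𝓟 (Set.Icc (-(C0 * (1 + y ^ 2))) (C0 * (1 + y ^ 2))) := by
      rw [le_principal_iff]
      have h2 : ∀ᶠ T in (g : Filter ℝ), CT T y ∈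
          Set.Icc (-(C0 * (1 + y ^ 2))) (C0 * (1 + y ^ 2)) := by
        filter_upwards [hT] with T hT1
        exact abs_le.1 (hb T hT1 y)
      exact h2
    obtain ⟨L, _, hL⟩ := isCompact_Icc.ultrafilter_le_nhds _ h1
    exact ⟨L, hL⟩
  choose C' hlim using hex
  refine ⟨C', C0, ?_, fun y => ?_, fun y => ?_, hlim⟩
  · intro a b hab
    refine le_of_tendsto_of_tendsto (hlim a) (hlim b) ?_
    filter_upwards [hT] with T hT1 using CT_mono RH (by linarith) hab
  · refine le_of_tendsto (hlim y).abs ?_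
    filter_upwards [hT] with T hT1 using hb T hT1 y
  · refine tendsto_nhds_unique (hlim (-y)) ?_
    refine (hlim y).neg.congr' ?_
    filter_upwards [hT] with T hT1
    rw [CT_odd (by linarith)]

/-- the connection between the two limits -/
lemma conn (RH : RiemannHypothesis) {g : Ultrafilter ℝ} (hgt : (g : Filter ℝ) ≤ atTop)
    (hA' : Monotone A') (hlimA : ∀ y, Tendsto (fun T => Aa T y) (g : Filter ℝ) (𝓝 (A' y)))
    (hC' : Monotone C') (hlimC : ∀ y, Tendsto (fun T => CT T y) (g : Filter ℝ) (𝓝 (C' y)))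
    (hK : TK κ K) : Lam A' K = -∫ x, C' x * deriv K x := by
  obtain ⟨C0, T0, hT0, hb⟩ := CT_bound RH
  have hc' : Continuous (deriv K) := (TK.deriv_smooth hK.smooth).continuous
  obtain ⟨D, hD⟩ := cs_decay hc' (TK.deriv_supp hK.supp)
  have h1 := (lim_gen (fun T hT => CT_mono RH (by linarith)) hb hc'.measurable hD hgt hC'
    hlimC).neg
  have h2 := Lam_tendsto RH hgt hA' hlimA hK
  have h3 := h2.add ((FR_Lam RH hK).mono_left hgt)
  rw [add_zero] at h3
  refine tendsto_nhds_unique h3 (h1.congr' ?_)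
  filter_upwards [hgt (eventually_ge_atTop T0)] with T hT
  have := parts hK (fun x => CT_deriv (T := T) (by linarith) x) (FR_cont (by linarith))
  linarith

/-- primitive of the predicted limit -/
noncomputable def CG (x : ℝ) : ℝ := ∫ α in (0 : ℝ)..x, min |α| 1

lemma mn_cont : Continuous fun α : ℝ => min |α| 1 := by fun_prop

lemma CG_deriv (x : ℝ) : HasDerivAt CG (min |x| 1) x :=
  intervalIntegral.integral_hasDerivAt_right (mn_cont.intervalIntegrable _ _)
    (mn_cont.stronglyMeasurableAtFilter _ _) mn_cont.continuousAt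

lemma CG_cont : Continuous CG := continuous_iff_continuousAt.2 fun x => (CG_deriv x).continuousAt

lemma CG_sub (a b : ℝ) : CG b - CG a = ∫ α in a..b, min |α| 1 :=
  intervalIntegral.integral_interval_sub_left (mn_cont.intervalIntegrable _ _)
    (mn_cont.intervalIntegrable _ _)

lemma CG_odd (x : ℝ) : CG (-x) = -CG x := by
  unfold CG
  have h1 : ∫ u in (0 : ℝ)..x, min |(-u)| 1 = ∫ u in (-x)..(-0), min |u| 1 :=
    intervalIntegral.integral_comp_neg (fun u : ℝ => min |u| 1)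
  have h2 : ∫ u in (0 : ℝ)..x, min |(-u)| 1 = ∫ u in (0 : ℝ)..x, min |u| 1 :=
    intervalIntegral.integral_congr fun u _ => by
      show min |(-u)| 1 = min |u| 1
      rw [abs_neg]
  rw [h2, neg_zero] at h1
  rw [intervalIntegral.integral_symm, h1]

/-- the discrepancy of the window with centre `c` -/
noncomputable def EE (C' : ℝ → ℝ) (ℓ c : ℝ) : ℝ := (C' (c + ℓ / 2) - C' (c - ℓ / 2)) -
  (CG (c + ℓ / 2) - CG (c - ℓ / 2)) - (Set.Icc (-(ℓ / 2)) (ℓ / 2)).indicator (fun _ => (1 : ℝ)) c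

lemma mono_cs_int (hC' : Monotone C') {φ : ℝ → ℝ} (hφ : Continuous φ) (hcs : HasCompactSupport φ) :
    Integrable fun x => C' x * φ x := by
  have := (hC'.locallyIntegrable (μ := volume)).integrable_smul_right_of_hasCompactSupport hφ hcs
  simpa [smul_eq_mul] using this

lemma shift_diff {G : ℝ → ℝ} {φ : ℝ → ℝ} (h : ∀ s : ℝ, Integrable fun x => G x * φ (x + s))
    (s : ℝ) : ∫ x, G x * (φ (x + s) - φ (x - s)) = -∫ c, (G (c + s) - G (c - s)) * φ c := by
  have e1 : ∀ s, ∫ x, G x * φ (x + s) = ∫ c, G (c - s) * φ c := by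
    intro s
    have := integral_add_right_eq_self (μ := volume) (fun c => G (c - s) * φ c) s
    rw [← this]
    refine integral_congr_ae (Eventually.of_forall fun x => ?_)
    show G x * φ (x + s) = G (x + s - s) * φ (x + s)
    rw [add_sub_cancel_right]
  have i2 : ∀ s, Integrable fun c => G (c - s) * φ c := by
    intro s
    have := (h s).comp_sub_right s
    refine this.congr (Eventually.of_forall fun x => ?_)
    show G (x - s) * φ (x - s + s) = G (x - s) * φ x
    rw [sub_add_cancel]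
  have e2 : ∫ x, G x * (φ (x + s) - φ (x - s)) =
      (∫ x, G x * φ (x + s)) - ∫ x, G x * φ (x + -s) := by
    rw [← integral_sub (h s) (h (-s))]
    refine integral_congr_ae (Eventually.of_forall fun x => ?_)
    show G x * (φ (x + s) - φ (x - s)) = G x * φ (x + s) - G x * φ (x + -s)
    rw [← sub_eq_add_neg]
    ring
  have i3 := i2 (-s)
  simp only [sub_neg_eq_add] at i3
  have e3 := e1 (-s)
  simp only [sub_neg_eq_add] at e3
  rw [e2, e1 s, e3, ← integral_neg, ← integral_sub (i2 s) i3]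
  refine integral_congr_ae (Eventually.of_forall fun x => ?_)
  show G (x - s) * φ x - G (x + s) * φ x = -((G (x + s) - G (x - s)) * φ x)
  ring

/-- the discrepancy as a functional -/
lemma E_int (hC' : Monotone C') (hconn : ∀ κ K, TK κ K → Lam A' K = -∫ x, C' x * deriv K x)
    (hℓ : 0 < ℓ) {φ : ℝ → ℝ} (hφ : TK κ φ) :
    Lam A' (bx ℓ φ) - Lam AG (bx ℓ φ) = ∫ c, EE C' ℓ c * φ c := by
  have hB := bx_TK hφ hℓ
  have hd : deriv (bx ℓ φ) = fun x => φ (x + ℓ / 2) - φ (x - ℓ / 2) :=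
    funext fun x => (bx_deriv hφ.cont ℓ x).deriv
  have hsh : ∀ s : ℝ, Continuous fun x => φ (x + s) := fun s => hφ.cont.comp (by fun_prop)
  have hshc : ∀ s : ℝ, HasCompactSupport fun x => φ (x + s) := fun s => by
    have := hφ.hcs.comp_homeomorph (Homeomorph.addRight s)
    exact this
  have i1 : ∀ s : ℝ, Integrable fun x => C' x * φ (x + s) := fun s =>
    mono_cs_int hC' (hsh s) (hshc s)
  have i2 : ∀ s : ℝ, Integrable fun x => CG x * φ (x + s) := fun s =>
    (CG_cont.mul (hsh s)).integrable_of_hasCompactSupport (hshc s).mul_left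
  have e1 : Lam A' (bx ℓ φ) = ∫ c, (C' (c + ℓ / 2) - C' (c - ℓ / 2)) * φ c := by
    rw [hconn _ _ hB, hd]
    simp only []
    rw [shift_diff i1, neg_neg]
  have e2 : ∫ α, bx ℓ φ α * min |α| 1 = ∫ c, (CG (c + ℓ / 2) - CG (c - ℓ / 2)) * φ c := by
    rw [parts hB CG_deriv mn_cont, hd]
    simp only []
    rw [shift_diff i2, neg_neg]
  have e3 : bx ℓ φ 0 = ∫ c, (Set.Icc (-(ℓ / 2)) (ℓ / 2)).indicator (fun _ => (1 : ℝ)) c * φ c := by
    unfold bx
    rw [zero_sub, zero_add, intervalIntegral.integral_of_le (by linarith),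
      ← integral_Icc_eq_integral_Ioc, ← integral_indicator measurableSet_Icc]
    refine integral_congr_ae (Eventually.of_forall fun x => ?_)
    show (Set.Icc (-(ℓ / 2)) (ℓ / 2)).indicator (fun t => φ t) x =
      (Set.Icc (-(ℓ / 2)) (ℓ / 2)).indicator (fun _ => (1 : ℝ)) x * φ x
    by_cases hx : x ∈ Set.Icc (-(ℓ / 2)) (ℓ / 2)
    · rw [Set.indicator_of_mem hx, Set.indicator_of_mem hx, one_mul]
    · rw [Set.indicator_of_notMem hx, Set.indicator_of_notMem hx, zero_mul]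
  have j0 : ∀ {G : ℝ → ℝ}, (∀ s : ℝ, Integrable fun x => G x * φ (x + s)) →
      Integrable fun c => (G (c + ℓ / 2) - G (c - ℓ / 2)) * φ c := by
    intro G hG
    have h1 := (hG (-(ℓ / 2))).comp_add_right (ℓ / 2)
    have h2 := (hG (ℓ / 2)).comp_sub_right (ℓ / 2)
    refine (h1.sub h2).congr (Eventually.of_forall fun c => ?_)
    show G (c + ℓ / 2) * φ (c + ℓ / 2 + -(ℓ / 2)) - G (c - ℓ / 2) * φ (c - ℓ / 2 + ℓ / 2) = _
    rw [add_neg_cancel_right, sub_add_cancel]
    ring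
  have j3 : Integrable fun c =>
      (Set.Icc (-(ℓ / 2)) (ℓ / 2)).indicator (fun _ => (1 : ℝ)) c * φ c := by
    have := hφ.integrable.indicator (measurableSet_Icc (a := -(ℓ / 2)) (b := ℓ / 2))
    refine this.congr (Eventually.of_forall fun x => ?_)
    show (Set.Icc (-(ℓ / 2)) (ℓ / 2)).indicator φ x =
      (Set.Icc (-(ℓ / 2)) (ℓ / 2)).indicator (fun _ => (1 : ℝ)) x * φ x
    by_cases hx : x ∈ Set.Icc (-(ℓ / 2)) (ℓ / 2)
    · rw [Set.indicator_of_mem hx, Set.indicator_of_mem hx, one_mul]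
    · rw [Set.indicator_of_notMem hx, Set.indicator_of_notMem hx, zero_mul]
  rw [e1, Lam_AG hB, e2, e3]
  have e4 : ∫ c, EE C' ℓ c * φ c = (∫ c, (C' (c + ℓ / 2) - C' (c - ℓ / 2)) * φ c) -
      (∫ c, (CG (c + ℓ / 2) - CG (c - ℓ / 2)) * φ c) -
      ∫ c, (Set.Icc (-(ℓ / 2)) (ℓ / 2)).indicator (fun _ => (1 : ℝ)) c * φ c := by
    have k1 := integral_sub (j0 i1) (j0 i2)
    have k2 : ∫ c, ((C' (c + ℓ / 2) - C' (c - ℓ / 2)) * φ c -
        (CG (c + ℓ / 2) - CG (c - ℓ / 2)) * φ c -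
        (Set.Icc (-(ℓ / 2)) (ℓ / 2)).indicator (fun _ => (1 : ℝ)) c * φ c) =
        (∫ c, ((C' (c + ℓ / 2) - C' (c - ℓ / 2)) * φ c -
        (CG (c + ℓ / 2) - CG (c - ℓ / 2)) * φ c)) -
        ∫ c, (Set.Icc (-(ℓ / 2)) (ℓ / 2)).indicator (fun _ => (1 : ℝ)) c * φ c :=
      integral_sub ((j0 i1).sub (j0 i2)) j3
    rw [← k1, ← k2]
    refine integral_congr_ae (Eventually.of_forall fun c => ?_)
    show EE C' ℓ c * φ c = (C' (c + ℓ / 2) - C' (c - ℓ / 2)) * φ c -
      (CG (c + ℓ / 2) - CG (c - ℓ / 2)) * φ c -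
      (Set.Icc (-(ℓ / 2)) (ℓ / 2)).indicator (fun _ => (1 : ℝ)) c * φ c
    unfold EE
    ring
  rw [e4]
  ring

end Pool.Agent.H7.FF
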