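import Pool.Agent.H7.FF.Tst
import Pool.Graph.R_pool_sql_team_seeded_1acbe0a2.Y744.ANC.Fin

/-! Linear functionals attached to monotone functions, and their limits. -/

open MeasureTheory Filter Topology Real
open scoped ContDiff

namespace Pool.Agent.H7.FF

open Pool.Agent.Y744 Pool.Agent.Y744.ANC

/-- passage to the limit along an ultrafilter -/
lemma lim_gen {A : ℝ → ℝ → ℝ} {T0 C : ℝ} (hmono : ∀ T, T0 ≤ T → Monotone (A T))
    (hb : ∀ T, T0 ≤ T → ∀ y, |A T y| ≤ C * (1 + y ^ 2)) {w : ℝ → ℝ} (hw : Measurable w) {D : ℝ}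
    (hwd : ∀ y, |w y| ≤ D / (1 + y ^ 2) ^ 2) {g : Ultrafilter ℝ}
    (hu : (g : Filter ℝ) ≤ atTop) {A' : ℝ → ℝ} (hA' : Monotone A')
    (hlim : ∀ y, Tendsto (fun T => A T y) (g : Filter ℝ) (𝓝 (A' y))) :
    Tendsto (fun T => ∫ y, A T y * w y) (g : Filter ℝ) (𝓝 (∫ y, A' y * w y)) := by
  have hC : 0 ≤ C := by
    have := (abs_nonneg _).trans (hb T0 le_rfl 0)
    simpa using this
  have hD0 : Integrable fun y : ℝ => C * D * (1 + y ^ 2)⁻¹ :=
    integrable_inv_one_add_sq.const_mul _
  have hpt : ∀ T, T0 ≤ T → ∀ y, ‖A T y * w y‖ ≤ C * D * (1 + y ^ 2)⁻¹ := by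
    intro T hT y
    rw [Real.norm_eq_abs, abs_mul]
    have h1 : 0 < 1 + y ^ 2 := by positivity
    calc |A T y| * |w y| ≤ (C * (1 + y ^ 2)) * (D / (1 + y ^ 2) ^ 2) := by
          gcongr
          · exact hb _ hT y
          · exact hwd y
      _ = C * D * (1 + y ^ 2)⁻¹ := by field_simp
  set M : ℝ := ∫ y : ℝ, C * D * (1 + y ^ 2)⁻¹ with hM
  have hbd : ∀ T, T0 ≤ T → |∫ y, A T y * w y| ≤ M := by
    intro T hT
    have := norm_integral_le_of_norm_le hD0 (Eventually.of_forall (hpt T hT))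
    rwa [Real.norm_eq_abs] at this
  have hTg : ∀ᶠ T in (g : Filter ℝ), T0 ≤ T := hu (eventually_ge_atTop _)
  obtain ⟨J, hJ⟩ : ∃ J, Tendsto (fun T => ∫ y, A T y * w y) (g : Filter ℝ) (𝓝 J) := by
    have h1 : ((g.map fun T => ∫ y, A T y * w y : Ultrafilter ℝ) : Filter ℝ) ≤
        𝓟 (Set.Icc (-M) M) := by
      rw [le_principal_iff]
      have h2 : ∀ᶠ T in (g : Filter ℝ), (∫ y, A T y * w y) ∈ Set.Icc (-M) M := by
        filter_upwards [hTg] with T hT1
        exact abs_le.1 (hbd T hT1)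
      exact h2
    obtain ⟨L, _, hL⟩ := isCompact_Icc.ultrafilter_le_nhds _ h1
    exact ⟨L, hL⟩
  have key : ∫ y, A' y * w y = J := by
    set q : ℕ → ℝ := TopologicalSpace.denseSeq ℝ with hq
    have hqd : DenseRange q := TopologicalSpace.denseRange_denseSeq ℝ
    have hex : ∀ n : ℕ, ∃ T : ℝ, (max (n : ℝ) T0 ≤ T ∧
        |(∫ y, A T y * w y) - J| < 1 / ((n : ℝ) + 1)) ∧
        ∀ j ∈ Finset.range (n + 1), |A T (q j) - A' (q j)| < 1 / ((n : ℝ) + 1) := by
      intro n
      have h1 : ∀ᶠ T in (g : Filter ℝ), max (n : ℝ) T0 ≤ T := hu (eventually_ge_atTop _)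
      have h2 : ∀ᶠ T in (g : Filter ℝ), ∀ j ∈ Finset.range (n + 1),
          |A T (q j) - A' (q j)| < 1 / ((n : ℝ) + 1) := by
        rw [Filter.eventually_all_finset]
        intro j _
        have := (Metric.tendsto_nhds.1 (hlim (q j))) (1 / ((n : ℝ) + 1)) (by positivity)
        simpa [Real.dist_eq] using this
      have h3 : ∀ᶠ T in (g : Filter ℝ), |(∫ y, A T y * w y) - J| < 1 / ((n : ℝ) + 1) := by
        have := (Metric.tendsto_nhds.1 hJ) (1 / ((n : ℝ) + 1)) (by positivity)
        simpa [Real.dist_eq] using this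
      exact ((h1.and h3).and h2).exists
    choose t ht1 ht2 using hex
    have htn : ∀ n : ℕ, (n : ℝ) ≤ t n := fun n => (le_max_left _ _).trans (ht1 n).1
    have htT : ∀ n : ℕ, T0 ≤ t n := fun n => (le_max_right _ _).trans (ht1 n).1
    have h1n : ∀ ε : ℝ, 0 < ε → ∀ᶠ n : ℕ in atTop, 1 / ((n : ℝ) + 1) < ε := fun ε hε =>
      (tendsto_order.1 tendsto_one_div_add_atTop_nhds_zero_nat).2 ε hε
    have hj : ∀ j, Tendsto (fun n => A (t n) (q j)) atTop (𝓝 (A' (q j))) := by
      intro j
      rw [Metric.tendsto_nhds]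
      intro ε hε
      filter_upwards [h1n ε hε, eventually_ge_atTop j] with n hn hnj
      rw [Real.dist_eq]
      exact (ht2 n j (Finset.mem_range.2 (by omega))).trans hn
    have hJt : Tendsto (fun n => ∫ y, A (t n) y * w y) atTop (𝓝 J) := by
      rw [Metric.tendsto_nhds]
      intro ε hε
      filter_upwards [h1n ε hε] with n hn
      rw [Real.dist_eq]
      exact (ht1 n).2.trans hn
    have hcont : ∀ x, ContinuousAt A' x → Tendsto (fun n => A (t n) x) atTop (𝓝 (A' x)) := by
      intro x hx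
      rw [tendsto_order]
      constructor
      · intro a ha
        have h1 : ∀ᶠ y in 𝓝 x, a < A' y := hx.eventually_const_lt ha
        obtain ⟨δ, hδ, h2⟩ := Metric.eventually_nhds_iff.1 h1
        obtain ⟨_, ⟨j, rfl⟩, hj1, hj2⟩ := hqd.exists_between (show x - δ < x by linarith)
        have h3 : a < A' (q j) := h2 (by rw [Real.dist_eq, abs_lt]; constructor <;> linarith)
        filter_upwards [(tendsto_order.1 (hj j)).1 a h3] with n hn
        exact hn.trans_le (hmono _ (htT n) hj2.le)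
      · intro a ha
        have h1 : ∀ᶠ y in 𝓝 x, A' y < a := hx.eventually_lt_const ha
        obtain ⟨δ, hδ, h2⟩ := Metric.eventually_nhds_iff.1 h1
        obtain ⟨_, ⟨j, rfl⟩, hj1, hj2⟩ := hqd.exists_between (show x < x + δ by linarith)
        have h3 : A' (q j) < a := h2 (by rw [Real.dist_eq, abs_lt]; constructor <;> linarith)
        filter_upwards [(tendsto_order.1 (hj j)).2 a h3] with n hn
        exact (hmono _ (htT n) hj1.le).trans_lt hn
    have hae : ∀ᵐ x, ContinuousAt A' x := by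
      have := hA'.countable_not_continuousAt
      exact this.ae_notMem volume |>.mono fun x hx => by
        by_contra hc
        exact hx hc
    have h1 : Tendsto (fun n => ∫ y, A (t n) y * w y) atTop (𝓝 (∫ y, A' y * w y)) := by
      refine tendsto_integral_of_dominated_convergence _ (fun n => ?_) hD0 (fun n => ?_) ?_
      · exact ((hmono _ (htT n)).measurable.mul hw).aestronglyMeasurable
      · exact Eventually.of_forall (hpt _ (htT n))
      · filter_upwards [hae] with x hx
        exact (hcont x hx).mul_const _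
    exact tendsto_nhds_unique h1 hJt
  rw [key]
  exact hJ

/-- the functional `- ∫ A y (ct K)' y dy` -/
noncomputable def Lam (A K : ℝ → ℝ) : ℝ := -∫ y, A y * dct K y

variable {κ : ℝ} {K : ℝ → ℝ} {A A' : ℝ → ℝ} {C0 : ℝ}

lemma Lam_int (hK : TK κ K) (hA : Measurable A) (hb : ∀ y, |A y| ≤ C0 * (1 + y ^ 2)) :
    Integrable fun y => A y * dct K y := by
  obtain ⟨D, hD0, hD⟩ := dct_decay 2 hK
  refine (integrable_inv_one_add_sq.const_mul (C0 * D)).mono'
    (hA.mul (dct_cont hK).measurable).aestronglyMeasurable (Eventually.of_forall fun y => ?_)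
  rw [Real.norm_eq_abs, abs_mul]
  have h1 : 0 < 1 + y ^ 2 := by positivity
  have h2 : 0 ≤ C0 * (1 + y ^ 2) := (abs_nonneg _).trans (hb y)
  calc |A y| * |dct K y| ≤ (C0 * (1 + y ^ 2)) * (D / (1 + y ^ 2) ^ 2) :=
        mul_le_mul (hb y) (hD y) (abs_nonneg _) h2
    _ = C0 * D * (1 + y ^ 2)⁻¹ := by field_simp

lemma dct_sub (h : TK κ K) {K' : ℝ → ℝ} (h' : TK κ K') (x : ℝ) :
    dct (fun α => K α - K' α) x = dct K x - dct K' x := by
  unfold dct
  rw [← integral_sub (h.mul_int (by fun_prop)) (h'.mul_int (by fun_prop))]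
  refine integral_congr_ae (Eventually.of_forall fun α => ?_)
  show (K α - K' α) * _ = _
  ring

lemma dct_smul (K : ℝ → ℝ) (c x : ℝ) : dct (fun α => c * K α) x = c * dct K x := by
  unfold dct
  rw [← integral_const_mul]
  refine integral_congr_ae (Eventually.of_forall fun α => ?_)
  show c * K α * _ = _
  ring

lemma Lam_sub (hA : Measurable A) (hb : ∀ y, |A y| ≤ C0 * (1 + y ^ 2)) (h : TK κ K)
    {K' : ℝ → ℝ} (h' : TK κ K') : Lam A (fun α => K α - K' α) = Lam A K - Lam A K' := by
  unfold Lam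
  have e : ∀ y, A y * dct (fun α => K α - K' α) y = A y * dct K y - A y * dct K' y := by
    intro y
    rw [dct_sub h h']
    ring
  simp_rw [e]
  rw [integral_sub (Lam_int h hA hb) (Lam_int h' hA hb)]
  ring

lemma Lam_smul (A K : ℝ → ℝ) (c : ℝ) : Lam A (fun α => c * K α) = c * Lam A K := by
  unfold Lam
  have e : ∀ y, A y * dct (fun α => c * K α) y = c * (A y * dct K y) := by
    intro y
    rw [dct_smul]
    ring
  simp_rw [e]
  rw [integral_const_mul]
  ring

lemma dct_int (hK : TK κ K) : Integrable (dct K) := by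
  have := Lam_int hK (A := fun _ => (1 : ℝ)) measurable_const (C0 := 1) (fun y => by
    rw [abs_one]
    nlinarith [sq_nonneg y])
  simpa using this

lemma ct_tendsto (hK : TK κ K) : Tendsto (ct K) atTop (𝓝 0) := by
  obtain ⟨D, hD0, hD⟩ := hK.decay 1
  have h1 : Tendsto (fun y : ℝ => D * y⁻¹) atTop (𝓝 (D * 0)) :=
    tendsto_inv_atTop_zero.const_mul D
  rw [mul_zero] at h1
  refine squeeze_zero_norm' ?_ h1
  filter_upwards [eventually_ge_atTop (1 : ℝ)] with y hy
  rw [Real.norm_eq_abs]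
  refine (hD y).trans ?_
  rw [div_eq_mul_inv]
  refine mul_le_mul_of_nonneg_left ?_ hD0
  refine inv_anti₀ (by linarith) ?_
  nlinarith [sq_nonneg y, sq_nonneg (y ^ 2)]

lemma tail_int (hK : TK κ K) (t : ℝ) : ∫ y in Set.Ioi t, dct K y = -ct K t := by
  rw [integral_Ioi_of_hasDerivAt_of_tendsto' (fun y _ => ct_deriv hK y)
    (dct_int hK).integrableOn (ct_tendsto hK)]
  ring

/-- the functional of the counting function is the pair sum -/
lemma Lam_Aa (hK : TK κ K) (T : ℝ) :
    Lam (Aa T) K = (Xf T)⁻¹ * Q2 (ct K) T (Real.log T) := by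
  have hw := dct_int hK
  have e1 : ∀ y, Aa T y * dct K y =
      (Xf T)⁻¹ * ∑ s ∈ Zt T, ∑ s' ∈ Zt T, mz s * mz s' *
        (Set.Ici |dd T s s'|).indicator (dct K) y := by
    intro y
    unfold Aa PC
    rw [mul_assoc, Finset.sum_mul]
    congr 1
    refine Finset.sum_congr rfl fun s _ => ?_
    rw [Finset.sum_mul]
    refine Finset.sum_congr rfl fun s' _ => ?_
    rw [mul_assoc]
    congr 1
    by_cases hx : |dd T s s'| ≤ y
    · rw [Set.indicator_of_mem (show dd T s s' ∈ {x | |x| ≤ y} from hx),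
        Set.indicator_of_mem (show y ∈ Set.Ici |dd T s s'| from hx), one_mul]
    · rw [Set.indicator_of_notMem (show dd T s s' ∉ {x | |x| ≤ y} from hx),
        Set.indicator_of_notMem (show y ∉ Set.Ici |dd T s s'| from hx), zero_mul]
  unfold Lam
  simp_rw [e1]
  have hi : ∀ t : ℝ, Integrable ((Set.Ici t).indicator (dct K)) := fun t =>
    hw.indicator measurableSet_Ici
  rw [integral_const_mul, integral_finsetSum _ fun s _ => integrable_finsetSum _ fun s' _ =>
    (hi _).const_mul _]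
  rw [← mul_neg]
  congr 1
  unfold Q2 QS
  rw [← Finset.sum_neg_distrib]
  refine Finset.sum_congr rfl fun s _ => ?_
  rw [integral_finsetSum _ fun s' _ => (hi _).const_mul _, ← Finset.sum_neg_distrib]
  refine Finset.sum_congr rfl fun s' _ => ?_
  rw [integral_const_mul, integral_indicator measurableSet_Ici, integral_Ici_eq_integral_Ioi,
    tail_int hK]
  have : ct K |dd T s s'| = ct K ((s.im - s'.im) * Real.log T / (2 * π)) := by
    show ct K |dd T s s'| = ct K (dd T s s')
    rcases abs_cases (dd T s s') with ⟨h1, _⟩ | ⟨h1, _⟩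
    · rw [h1]
    · rw [h1, TK.ct_neg]
  rw [this]
  ring

lemma AG_eq {y : ℝ} (hy : 0 < y) : AG y = 1 + 2 * gp y := by
  unfold AG
  rw [if_neg (by linarith)]

/-- the functional of the predicted counting function -/
lemma Lam_AG0 (hK : TK κ K) : Lam AG K = ct K 0 + ∫ y, ct K y * gd y := by
  obtain ⟨D, hD0, hD⟩ := hK.decay 2
  have hfc : Continuous (ct K) := hK.ct_cont
  have hwc : Continuous (dct K) := dct_cont hK
  have i1 : Integrable fun y => ct K y * gd y := by
    refine (integrable_inv_one_add_sq.const_mul D).mono'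
      (hfc.mul gd_cont).aestronglyMeasurable (Eventually.of_forall fun y => ?_)
    rw [Real.norm_eq_abs, abs_mul, abs_of_nonneg (gd_nonneg y)]
    have h1 : (1 : ℝ) ≤ 1 + y ^ 2 := by nlinarith [sq_nonneg y]
    calc |ct K y| * gd y ≤ D / (1 + y ^ 2) ^ 2 * 1 :=
          mul_le_mul (hD y) (gd_le y) (gd_nonneg y) (by positivity)
      _ ≤ D * (1 + y ^ 2)⁻¹ := by
          rw [mul_one, div_eq_mul_inv]
          refine mul_le_mul_of_nonneg_left ?_ hD0
          refine inv_anti₀ (by positivity) ?_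
          nlinarith
  have i2 : Integrable fun y => AG y * dct K y := Lam_int hK AG_meas AG_bound
  have e1 : ∫ y, AG y * dct K y = ∫ y in Set.Ioi 0, (1 + 2 * gp y) * dct K y := by
    rw [← integral_add_compl (measurableSet_Iic (a := (0 : ℝ))) i2]
    have h1 : ∫ y in Set.Iic (0 : ℝ), AG y * dct K y = 0 := by
      rw [integral_Iic_eq_integral_Iio]
      refine setIntegral_eq_zero_of_forall_eq_zero fun y hy => ?_
      have hy' : y < 0 := hy
      unfold AG
      rw [if_pos hy', zero_mul]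
    rw [h1, zero_add, Set.compl_Iic]
    refine setIntegral_congr_fun measurableSet_Ioi fun y hy => ?_
    have hy' : (0 : ℝ) < y := hy
    show AG y * _ = _
    rw [AG_eq hy']
  set G : ℝ → ℝ := fun y => (1 + 2 * gp y) * ct K y with hG
  have hGd : ∀ y, HasDerivAt G (2 * gd y * ct K y + (1 + 2 * gp y) * dct K y) y := by
    intro y
    have h1 : HasDerivAt (fun y => 1 + 2 * gp y) (2 * gd y) y :=
      ((gp_deriv y).const_mul 2).const_add 1
    exact h1.mul (ct_deriv hK y)
  have j1 : IntegrableOn (fun y => 2 * gd y * ct K y) (Set.Ioi 0) := by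
    have := (i1.const_mul 2).integrableOn (s := Set.Ioi (0 : ℝ))
    refine this.congr_fun (fun y _ => ?_) measurableSet_Ioi
    show 2 * (ct K y * gd y) = _
    ring
  have j2 : IntegrableOn (fun y => (1 + 2 * gp y) * dct K y) (Set.Ioi 0) := by
    refine (i2.integrableOn (s := Set.Ioi (0 : ℝ))).congr_fun (fun y hy => ?_) measurableSet_Ioi
    have hy' : (0 : ℝ) < y := hy
    show AG y * _ = _
    rw [AG_eq hy']
  have hGt : Tendsto G atTop (𝓝 0) := by
    have h1 : Tendsto (fun y : ℝ => 3 * D * y⁻¹) atTop (𝓝 (3 * D * 0)) :=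
      tendsto_inv_atTop_zero.const_mul (3 * D)
    rw [mul_zero] at h1
    refine squeeze_zero_norm' ?_ h1
    filter_upwards [eventually_ge_atTop (1 : ℝ)] with y hy
    rw [Real.norm_eq_abs, hG]
    show |(1 + 2 * gp y) * ct K y| ≤ _
    have h2 := gp_nonneg (x := y) (by linarith)
    have h3 := gp_le (x := y) (by linarith)
    rw [abs_mul, abs_of_nonneg (by linarith)]
    have hy0 : 0 < y := by linarith
    have h4 : D / (1 + y ^ 2) ^ 2 ≤ D * (y⁻¹ * y⁻¹) := by
      rw [div_eq_mul_inv, ← mul_inv]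
      refine mul_le_mul_of_nonneg_left ?_ hD0
      refine inv_anti₀ (by positivity) ?_
      nlinarith [sq_nonneg y, sq_nonneg (y ^ 2)]
    calc (1 + 2 * gp y) * |ct K y| ≤ (3 * y) * (D * (y⁻¹ * y⁻¹)) := by
          refine mul_le_mul (by linarith) ((hD y).trans h4) (abs_nonneg _) (by positivity)
      _ = 3 * D * y⁻¹ := by field_simp
  have key := integral_Ioi_of_hasDerivAt_of_tendsto' (a := 0) (fun y _ => hGd y) (j1.add j2) hGt
  rw [integral_add j1 j2] at key
  have hG0 : G 0 = ct K 0 := by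
    simp only [hG, gp_zero]
    ring
  rw [hG0] at key
  have e2 : ∫ y in Set.Ioi (0 : ℝ), 2 * gd y * ct K y = ∫ y, ct K y * gd y := by
    have h1 : ∫ y in Set.Ioi (0 : ℝ), 2 * gd y * ct K y =
        2 * ∫ y in Set.Ioi (0 : ℝ), ct K y * gd y := by
      rw [← integral_const_mul]
      refine integral_congr_ae (Eventually.of_forall fun y => ?_)
      show 2 * gd y * ct K y = _
      ring
    have h2 := integral_comp_abs (f := fun y => ct K y * gd y)
    have h3 : ∫ y : ℝ, (fun y => ct K y * gd y) |y| = ∫ y, ct K y * gd y := by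
      refine integral_congr_ae (Eventually.of_forall fun y => ?_)
      show ct K |y| * gd |y| = ct K y * gd y
      rcases abs_cases y with ⟨hy, _⟩ | ⟨hy, _⟩
      · rw [hy]
      · rw [hy, TK.ct_neg]
        congr 1
        unfold gd
        rw [mul_neg, Real.sinc_neg]
    rw [h1, ← h2, h3]
  unfold Lam
  rw [e1, ← e2]
  linarith

lemma Lam_AG (hK : TK κ K) : Lam AG K = K 0 + ∫ α, K α * min |α| 1 := by
  rw [Lam_AG0 hK, gue_id hK]

lemma dct_K2 (hκ : 0 < κ) (hK : TK κ K) (y : ℝ) : dct (K2 K) y = -(y * ct K y) :=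
  (ct_deriv (K2_TK hκ hK) y).unique (ct_K2_deriv hκ hK y)

/-- the discrepancy of the functionals at the special test functions -/
lemma Lam_K2 (hκ : 0 < κ) (hK : TK κ K) (hA' : Monotone A')
    (hb : ∀ y, |A' y| ≤ C0 * (1 + y ^ 2)) (hneg : ∀ y, y < 0 → A' y = 0) :
    Lam A' (K2 K) - Lam AG (K2 K) = (∫ y, (y * dE A' y) * ct K y) / 2 := by
  have hK2 := K2_TK hκ hK
  have i1 := Lam_int hK2 hA'.measurable hb
  have i2 := Lam_int hK2 AG_meas AG_bound
  set δ : ℝ → ℝ := fun y => A' y - AG y with hδ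
  have i3 : Integrable fun y => δ y * (y * ct K y) := by
    refine (i2.sub i1).congr (Eventually.of_forall fun y => ?_)
    show AG y * dct (K2 K) y - A' y * dct (K2 K) y = (A' y - AG y) * (y * ct K y)
    rw [dct_K2 hκ hK]
    ring
  have e1 : Lam A' (K2 K) - Lam AG (K2 K) = ∫ y, δ y * (y * ct K y) := by
    unfold Lam
    rw [sub_neg_eq_add, neg_add_eq_sub, ← integral_sub i2 i1]
    refine integral_congr_ae (Eventually.of_forall fun y => ?_)
    show AG y * dct (K2 K) y - A' y * dct (K2 K) y = (A' y - AG y) * (y * ct K y)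
    rw [dct_K2 hκ hK]
    ring
  have e2 : ∫ y, δ (-y) * (y * ct K y) = -∫ y, δ y * (y * ct K y) := by
    rw [← integral_neg_eq_self, ← integral_neg]
    refine integral_congr_ae (Eventually.of_forall fun y => ?_)
    show δ (-(-y)) * (-y * ct K (-y)) = -(δ y * (y * ct K y))
    rw [neg_neg, TK.ct_neg]
    ring
  have i4 : Integrable fun y => δ (-y) * (y * ct K y) := by
    have := i3.comp_neg.neg
    refine this.congr (Eventually.of_forall fun y => ?_)
    show -(δ (-y) * (-y * ct K (-y))) = _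
    rw [TK.ct_neg]
    ring
  have e3 : ∫ y, (y * dE A' y) * ct K y = 2 * ∫ y, δ y * (y * ct K y) := by
    have : ∀ y, (y * dE A' y) * ct K y = δ y * (y * ct K y) - δ (-y) * (y * ct K y) := by
      intro y
      unfold dE
      simp only [hδ]
      ring
    simp_rw [this]
    rw [integral_sub i3 i4, e2]
    ring
  rw [e1, e3]
  ring

/-- positivity -/
lemma Lam_Aa_nonneg (hK : TK κ K) (hpos : ∀ y, 0 ≤ ct K y) {T : ℝ} (hT : 1 < T) :
    0 ≤ Lam (Aa T) K := by
  rw [Lam_Aa hK]
  refine mul_nonneg (inv_nonneg.2 (Xf_pos hT).le) ?_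
  unfold Q2 QS
  exact Finset.sum_nonneg fun s _ => Finset.sum_nonneg fun s' _ =>
    mul_nonneg (mul_nonneg (mz_nonneg _) (mz_nonneg _)) (hpos _)

/-- limits of the functionals -/
lemma Lam_tendsto (RH : RiemannHypothesis) {g : Ultrafilter ℝ} (hgt : (g : Filter ℝ) ≤ atTop)
    (hA' : Monotone A') (hlim : ∀ y, Tendsto (fun T => Aa T y) (g : Filter ℝ) (𝓝 (A' y)))
    (hK : TK κ K) : Tendsto (fun T => Lam (Aa T) K) (g : Filter ℝ) (𝓝 (Lam A' K)) := by
  obtain ⟨C0, T0, hT0, hb⟩ := Aa_bound RH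
  obtain ⟨D, hD0, hD⟩ := dct_decay 2 hK
  unfold Lam
  exact (lim_gen (fun T hT => Aa_mono (by linarith)) hb (dct_cont hK).measurable hD hgt hA'
    hlim).neg

end Pool.Agent.H7.FF
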