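import Pool.Agent.H7.FF.Frm
import Pool.Agent.H7.FF.Rig

/-! Long test functions. -/

open MeasureTheory Filter Topology Real
open scoped ContDiff

namespace Pool.Agent.H7.FF

open Pool.Agent.Y744 Pool.Agent.Y744.ANC

variable {κ ℓ : ℝ} {K φ0 : ℝ → ℝ} {A A' C' : ℝ → ℝ} {C0 : ℝ}

/-- lower bound for the functional of a function which is almost nonnegative off the origin -/
lemma Lam_lower (RH : RiemannHypothesis) : ∃ C2 : ℝ, 0 ≤ C2 ∧ ∀ (g : Ultrafilter ℝ),
    (g : Filter ℝ) ≤ atTop → ∀ A' : ℝ → ℝ, Monotone A' →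
    (∀ y, Tendsto (fun T => Aa T y) (g : Filter ℝ) (𝓝 (A' y))) →
    ∀ (κ : ℝ) (K : ℝ → ℝ) (c : ℝ), TK κ K → 0 ≤ c → (∀ u, u ≠ 0 → -(c / (1 + u ^ 2)) ≤ ct K u) →
    ct K 0 * A' 0 - c * C2 ≤ Lam A' K := by
  obtain ⟨C2, T0, hC2, hT0, hbd⟩ := sum_bd RH
  refine ⟨C2, hC2, fun g hgt A' hA' hlim κ K c hK hc hlow => ?_⟩
  have h1 := Lam_tendsto RH hgt hA' hlim hK
  have h2 : Tendsto (fun T => ct K 0 * Aa T 0 - c * C2) (g : Filter ℝ)
      (𝓝 (ct K 0 * A' 0 - c * C2)) := ((hlim 0).const_mul _).sub_const _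
  refine le_of_tendsto_of_tendsto h2 h1 ?_
  filter_upwards [hgt (eventually_ge_atTop T0)] with T hT
  have hT20 : 20 ≤ T := hT0.trans hT
  have hX := Xf_pos (V := T) (by linarith)
  have h3 := hbd T hT (fun u => c / (1 + u ^ 2)) c (fun u => by
    rw [abs_of_nonneg (by positivity)])
  rw [Lam_Aa hK]
  unfold Aa
  have h4 : ct K 0 * PC T {x | |x| ≤ 0} - ∑ s ∈ Zt T, ∑ s' ∈ Zt T, mz s * mz s' *
      |c / (1 + (dd T s s') ^ 2)| ≤ Q2 (ct K) T (Real.log T) := by
    unfold PC Q2 QS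
    rw [Finset.mul_sum, ← Finset.sum_sub_distrib]
    refine Finset.sum_le_sum fun s _ => ?_
    rw [Finset.mul_sum, ← Finset.sum_sub_distrib]
    refine Finset.sum_le_sum fun s' _ => ?_
    have hm : 0 ≤ mz s * mz s' := mul_nonneg (mz_nonneg _) (mz_nonneg _)
    show _ ≤ mz s * mz s' * ct K (dd T s s')
    have e1 : ct K 0 * (mz s * mz s' * Set.indicator {x | |x| ≤ 0} (fun _ => (1 : ℝ))
        (dd T s s')) - mz s * mz s' * |c / (1 + (dd T s s') ^ 2)| =
        mz s * mz s' * (ct K 0 * Set.indicator {x | |x| ≤ 0} (fun _ => (1 : ℝ)) (dd T s s') -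
          |c / (1 + (dd T s s') ^ 2)|) := by ring
    rw [e1]
    refine mul_le_mul_of_nonneg_left ?_ hm
    rw [abs_of_nonneg (by positivity : 0 ≤ c / (1 + (dd T s s') ^ 2))]
    by_cases hx : dd T s s' = 0
    · rw [hx, Set.indicator_of_mem (by simp : (0 : ℝ) ∈ {x : ℝ | |x| ≤ 0}), mul_one]
      have : 0 ≤ c / (1 + (0 : ℝ) ^ 2) := by positivity
      linarith
    · rw [Set.indicator_of_notMem (by simpa using hx), mul_zero]
      have := hlow _ hx
      linarith
  calc ct K 0 * ((Xf T)⁻¹ * PC T {x | |x| ≤ 0}) - c * C2 ≤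
      ct K 0 * ((Xf T)⁻¹ * PC T {x | |x| ≤ 0}) - (Xf T)⁻¹ * ∑ s ∈ Zt T, ∑ s' ∈ Zt T,
        mz s * mz s' * |c / (1 + (dd T s s') ^ 2)| := by linarith
    _ = (Xf T)⁻¹ * (ct K 0 * PC T {x | |x| ≤ 0} - ∑ s ∈ Zt T, ∑ s' ∈ Zt T, mz s * mz s' *
      |c / (1 + (dd T s s') ^ 2)|) := by ring
    _ ≤ (Xf T)⁻¹ * Q2 (ct K) T (Real.log T) :=
      mul_le_mul_of_nonneg_left h4 (inv_pos.2 hX).le

/-- positivity of the limit functional -/
lemma Lam_pos (RH : RiemannHypothesis) {g : Ultrafilter ℝ} (hgt : (g : Filter ℝ) ≤ atTop)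
    (hA' : Monotone A') (hlim : ∀ y, Tendsto (fun T => Aa T y) (g : Filter ℝ) (𝓝 (A' y)))
    (hK : TK κ K) (hpos : ∀ y, 0 ≤ ct K y) : 0 ≤ Lam A' K := by
  refine ge_of_tendsto (Lam_tendsto RH hgt hA' hlim hK) ?_
  filter_upwards [hgt (eventually_gt_atTop (1 : ℝ))] with T hT
  exact Lam_Aa_nonneg hK hpos hT

/-- the stretched test function -/
noncomputable def str (φ0 : ℝ → ℝ) (s : ℝ) : ℝ → ℝ := fun α => s * (s⁻¹ * φ0 (s⁻¹ * α))

lemma str_TK (h : TK κ φ0) {s : ℝ} (hs : 0 < s) : TK (s * κ) (str φ0 s) := TK_smul (h.dil hs) s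

lemma str_ct (φ0 : ℝ → ℝ) {s : ℝ} (hs : 0 < s) (x : ℝ) : ct (str φ0 s) x = s * ct φ0 (s * x) := by
  unfold str
  rw [ct_smul, TK.ct_dil φ0 hs]

lemma str_val (φ0 : ℝ → ℝ) {s : ℝ} (hs : 0 < s) (x : ℝ) : str φ0 s x = φ0 (s⁻¹ * x) := by
  unfold str
  field_simp

lemma str_dct (h : TK κ φ0) {s : ℝ} (hs : 0 < s) (x : ℝ) :
    dct (str φ0 s) x = s * (s * dct φ0 (s * x)) := by
  have h1 := ct_deriv (str_TK h hs) x
  have e : ct (str φ0 s) = fun x => s * ct φ0 (s * x) := funext (str_ct φ0 hs)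
  rw [e] at h1
  have h2 : HasDerivAt (fun x => s * ct φ0 (s * x)) (s * (dct φ0 (s * x) * s)) x := by
    have h3 : HasDerivAt (fun x : ℝ => s * x) s x := by
      simpa using (hasDerivAt_id x).const_mul s
    exact ((ct_deriv h (s * x)).comp x h3).const_mul s
  rw [h1.unique h2]
  ring

lemma gd_sq (u : ℝ) : gd u ≤ π ^ 2 / 3 * u ^ 2 := by
  unfold gd
  have := sinc_sq_lower (π * u)
  nlinarith

/-- bounds for the transform of the window of a long test function -/
lemma win_bd (h : TK κ φ0) (hℓ : 0 < ℓ) : ∃ D : ℝ, 0 ≤ D ∧ ∀ s : ℝ, 1 ≤ s →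
    (∀ u, 1 / ℓ < |u| → |ct (bx ℓ (str φ0 s)) u| ≤ D / s / (1 + u ^ 2)) ∧
    |∫ u, ct (bx ℓ (str φ0 s)) u * gd u| ≤ D / s := by
  obtain ⟨D1, hD0, hD⟩ := h.decay 2
  have hpi := Real.pi_pos
  refine ⟨max (ℓ ^ 3 * (1 + ℓ ^ 2) * D1) (ℓ * D1 * (π ^ 2 / 3) * π), by positivity,
    fun s hs => ⟨fun u hu => ?_, ?_⟩⟩
  · have hs0 : 0 < s := by linarith
    rw [ct_bx (str_TK h hs0) hℓ, str_ct φ0 hs0]
    have h1 : |ℓ * Real.sinc (π * ℓ * u) * (s * ct φ0 (s * u))| ≤ ℓ * (s * |ct φ0 (s * u)|) := by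
      rw [abs_mul, abs_mul, abs_mul, abs_of_pos hℓ, abs_of_pos hs0]
      have := Real.abs_sinc_le_one (π * ℓ * u)
      have h2 : 0 ≤ s * |ct φ0 (s * u)| := by positivity
      nlinarith [mul_le_mul_of_nonneg_right this h2]
    refine h1.trans ?_
    have h2 := hD (s * u)
    have hu2 : 1 ≤ ℓ ^ 2 * u ^ 2 := by
      rw [div_lt_iff₀ hℓ] at hu
      have h3 : 1 ≤ (|u| * ℓ) ^ 2 := one_le_pow₀ hu.le
      rw [mul_pow, sq_abs] at h3
      linarith
    have h3 : s ^ 4 * (1 + u ^ 2) ≤ ℓ ^ 2 * (1 + ℓ ^ 2) * (1 + (s * u) ^ 2) ^ 2 := by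
      have h4 : 1 + u ^ 2 ≤ (1 + ℓ ^ 2) * u ^ 2 := by linarith
      have h5 : u ^ 2 ≤ ℓ ^ 2 * u ^ 4 := by
        have : u ^ 2 * 1 ≤ u ^ 2 * (ℓ ^ 2 * u ^ 2) := mul_le_mul_of_nonneg_left hu2 (sq_nonneg u)
        nlinarith
      have h6 : s ^ 4 * u ^ 4 ≤ (1 + (s * u) ^ 2) ^ 2 := by
        nlinarith [sq_nonneg (s * u)]
      calc s ^ 4 * (1 + u ^ 2) ≤ s ^ 4 * ((1 + ℓ ^ 2) * u ^ 2) :=
            mul_le_mul_of_nonneg_left h4 (by positivity)
        _ ≤ s ^ 4 * ((1 + ℓ ^ 2) * (ℓ ^ 2 * u ^ 4)) := by gcongr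
        _ = ℓ ^ 2 * (1 + ℓ ^ 2) * (s ^ 4 * u ^ 4) := by ring
        _ ≤ ℓ ^ 2 * (1 + ℓ ^ 2) * (1 + (s * u) ^ 2) ^ 2 :=
            mul_le_mul_of_nonneg_left h6 (by positivity)
    calc ℓ * (s * |ct φ0 (s * u)|) ≤ ℓ * (s * (D1 / (1 + (s * u) ^ 2) ^ 2)) := by gcongr
      _ ≤ ℓ ^ 3 * (1 + ℓ ^ 2) * D1 / s / (1 + u ^ 2) := by
          rw [div_div, ← mul_div_assoc, ← mul_div_assoc, div_le_div_iff₀ (by positivity)
            (by positivity)]
          have h7 : s ^ 2 ≤ s ^ 4 := pow_le_pow_right₀ hs (by norm_num)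
          calc ℓ * (s * D1) * (s * (1 + u ^ 2)) = ℓ * D1 * (s ^ 2 * (1 + u ^ 2)) := by ring
            _ ≤ ℓ * D1 * (s ^ 4 * (1 + u ^ 2)) := by gcongr
            _ ≤ ℓ * D1 * (ℓ ^ 2 * (1 + ℓ ^ 2) * (1 + (s * u) ^ 2) ^ 2) :=
                mul_le_mul_of_nonneg_left h3 (by positivity)
            _ = ℓ ^ 3 * (1 + ℓ ^ 2) * D1 * (1 + (s * u) ^ 2) ^ 2 := by ring
      _ ≤ _ := by
          gcongr
          exact le_max_left _ _
  · have hs0 : 0 < s := by linarith
    have hb : ∀ u : ℝ, ‖ct (bx ℓ (str φ0 s)) u * gd u‖ ≤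
        ℓ * D1 * (π ^ 2 / 3) / s * (1 + u ^ 2)⁻¹ := by
      intro u
      rw [ct_bx (str_TK h hs0) hℓ, str_ct φ0 hs0, norm_mul, Real.norm_eq_abs, Real.norm_eq_abs,
        abs_of_nonneg (gd_nonneg u)]
      have h1 : |ℓ * Real.sinc (π * ℓ * u) * (s * ct φ0 (s * u))| ≤ ℓ * (s * |ct φ0 (s * u)|) := by
        rw [abs_mul, abs_mul, abs_mul, abs_of_pos hℓ, abs_of_pos hs0]
        have := Real.abs_sinc_le_one (π * ℓ * u)
        have h2 : 0 ≤ s * |ct φ0 (s * u)| := by positivity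
        nlinarith [mul_le_mul_of_nonneg_right this h2]
      have h2 := hD (s * u)
      have h3 : s ^ 2 * u ^ 2 * (1 + u ^ 2) ≤ (1 + (s * u) ^ 2) ^ 2 := by
        have h4 : 1 + u ^ 2 ≤ 1 + (s * u) ^ 2 := by
          rw [mul_pow]
          have : 1 * u ^ 2 ≤ s ^ 2 * u ^ 2 :=
            mul_le_mul_of_nonneg_right (one_le_pow₀ hs) (sq_nonneg u)
          linarith
        have h5 : s ^ 2 * u ^ 2 ≤ 1 + (s * u) ^ 2 := by
          rw [mul_pow]
          linarith
        calc s ^ 2 * u ^ 2 * (1 + u ^ 2) ≤ (1 + (s * u) ^ 2) * (1 + (s * u) ^ 2) :=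
              mul_le_mul h5 h4 (by positivity) (by positivity)
          _ = (1 + (s * u) ^ 2) ^ 2 := by ring
      calc |ℓ * Real.sinc (π * ℓ * u) * (s * ct φ0 (s * u))| * gd u ≤
            ℓ * (s * (D1 / (1 + (s * u) ^ 2) ^ 2)) * (π ^ 2 / 3 * u ^ 2) := by
            refine mul_le_mul (h1.trans ?_) (gd_sq u) (gd_nonneg u) (by positivity)
            gcongr
        _ ≤ ℓ * D1 * (π ^ 2 / 3) / s * (1 + u ^ 2)⁻¹ := by
            have e1 : ℓ * (s * (D1 / (1 + (s * u) ^ 2) ^ 2)) * (π ^ 2 / 3 * u ^ 2) =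
                ℓ * D1 * (π ^ 2 / 3) * (s * u ^ 2) / (1 + (s * u) ^ 2) ^ 2 := by
              field_simp
            have e2 : ℓ * D1 * (π ^ 2 / 3) / s * (1 + u ^ 2)⁻¹ =
                ℓ * D1 * (π ^ 2 / 3) / (s * (1 + u ^ 2)) := by
              field_simp
            rw [e1, e2, div_le_div_iff₀ (by positivity) (by positivity)]
            calc ℓ * D1 * (π ^ 2 / 3) * (s * u ^ 2) * (s * (1 + u ^ 2)) =
                ℓ * D1 * (π ^ 2 / 3) * (s ^ 2 * u ^ 2 * (1 + u ^ 2)) := by ring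
              _ ≤ ℓ * D1 * (π ^ 2 / 3) * (1 + (s * u) ^ 2) ^ 2 :=
                  mul_le_mul_of_nonneg_left h3 (by positivity)
    have h4 := norm_integral_le_of_norm_le
      (integrable_inv_one_add_sq.const_mul (ℓ * D1 * (π ^ 2 / 3) / s)) (Eventually.of_forall hb)
    rw [Real.norm_eq_abs, integral_const_mul, integral_univ_inv_one_add_sq] at h4
    refine h4.trans ?_
    rw [div_mul_eq_mul_div]
    gcongr
    exact le_max_right _ _

/-- the discrepancy of the long windows is almost nonnegative -/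
lemma long_ge (RH : RiemannHypothesis) {g : Ultrafilter ℝ} (hgt : (g : Filter ℝ) ≤ atTop)
    (hA' : Monotone A') (h0 : 1 ≤ A' 0)
    (hlim : ∀ y, Tendsto (fun T => Aa T y) (g : Filter ℝ) (𝓝 (A' y))) (hℓ : 0 < ℓ)
    (h : TK κ φ0) (hp : ∀ y, 0 ≤ ct φ0 y) : ∃ M : ℝ, 0 ≤ M ∧ ∀ s : ℝ, 1 ≤ s →
      -(M / s) ≤ Lam A' (bx ℓ (str φ0 s)) - Lam AG (bx ℓ (str φ0 s)) := by
  obtain ⟨C2, hC2, hlow⟩ := Lam_lower RH
  obtain ⟨D, hD0, hD⟩ := win_bd h hℓ
  have hpi := Real.pi_pos
  refine ⟨D * C2 + D, by positivity, fun s hs => ?_⟩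
  have hs0 : 0 < s := by linarith
  obtain ⟨h1, h2⟩ := hD s hs
  have hB := bx_TK (str_TK h hs0) hℓ
  have e0 : ct (bx ℓ (str φ0 s)) 0 = ℓ * (s * ct φ0 0) := by
    rw [ct_bx (str_TK h hs0) hℓ, str_ct φ0 hs0]
    simp
  have h3 := hlow g hgt A' hA' hlim _ _ (D / s) hB (by positivity) (fun u hu => by
    rcases le_or_gt |u| (1 / ℓ) with hul | hul
    · have h4 : 0 ≤ ct (bx ℓ (str φ0 s)) u := by
        rw [ct_bx (str_TK h hs0) hℓ, str_ct φ0 hs0]
        refine mul_nonneg (mul_nonneg hℓ.le ?_) (mul_nonneg hs0.le (hp _))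
        rw [Real.sinc_of_ne_zero (by positivity)]
        rw [le_div_iff₀ hℓ] at hul
        rcases lt_or_gt_of_ne hu with hu1 | hu1
        · rw [abs_of_neg hu1] at hul
          have h5 : Real.sin (π * ℓ * u) ≤ 0 := by
            refine Real.sin_nonpos_of_nonpos_of_neg_pi_le ?_ ?_
            · nlinarith [mul_pos hpi hℓ]
            · nlinarith
          exact div_nonneg_of_nonpos h5 (by nlinarith [mul_pos hpi hℓ])
        · rw [abs_of_pos hu1] at hul
          have h5 : 0 ≤ Real.sin (π * ℓ * u) := by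
            refine Real.sin_nonneg_of_nonneg_of_le_pi (by positivity) ?_
            nlinarith
          exact div_nonneg h5 (by positivity)
      have h5 : 0 ≤ D / s / (1 + u ^ 2) := by positivity
      linarith
    · have := neg_abs_le (ct (bx ℓ (str φ0 s)) u)
      have h4 := h1 u hul
      linarith)
  rw [Lam_AG0 hB]
  have h4 : ct (bx ℓ (str φ0 s)) 0 ≤ ct (bx ℓ (str φ0 s)) 0 * A' 0 := by
    have : 0 ≤ ct (bx ℓ (str φ0 s)) 0 := by
      rw [e0]
      have := hp 0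
      positivity
    nlinarith
  have h5 := (abs_le.1 h2).2
  have e1 : (D * C2 + D) / s = D / s * C2 + D / s := by ring
  rw [e1]
  linarith

/-- under repulsion the discrepancy of the long windows is almost nonpositive -/
lemma long_le (RH : RiemannHypothesis) {g : Ultrafilter ℝ} (hgt : (g : Filter ℝ) ≤ atTop)
    (hA' : Monotone A') (h0 : 1 ≤ A' 0) (hneg : ∀ y, y < 0 → A' y = 0)
    (hb : ∀ y, |A' y| ≤ C0 * (1 + y ^ 2))
    (hlim : ∀ y, Tendsto (fun T => Aa T y) (g : Filter ℝ) (𝓝 (A' y)))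
    (hrep : ∀ ε : ℝ, 0 < ε → ∃ δ : ℝ, 0 < δ ∧ ∀ y, 0 < y → y < δ → A' y ≤ 1 + ε * y) (hℓ : 0 < ℓ)
    (h : TK κ φ0) (hp : ∀ y, 0 ≤ ct φ0 y) {ε : ℝ} (hε : 0 < ε) : ∀ᶠ n : ℕ in atTop,
      Lam A' (bx ℓ (str φ0 n)) - Lam AG (bx ℓ (str φ0 n)) ≤ ε := by
  obtain ⟨D, hD0, hD⟩ := win_bd h hℓ
  have hC0 : 0 ≤ C0 := by
    have := (abs_nonneg _).trans (hb 0)
    simpa using this
  -- the functional of the long test functions
  have key : Tendsto (fun n : ℕ => Lam A' (str φ0 n) - n * ct φ0 0) atTop (𝓝 0) := by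
    obtain ⟨δ, hδ, hδ1⟩ := hrep 1 one_pos
    obtain ⟨D1, hD10, hD1⟩ := dct_decay 3 h
    set M : ℝ := 1 + (C0 + 1) / δ with hM
    have hM0 : 0 ≤ M := by rw [hM]; positivity
    have hA1 : ∀ y, 0 ≤ y → 1 ≤ A' y := fun y hy => h0.trans (hA' hy)
    have hlimn : Tendsto (fun n : ℕ => ∫ v in Set.Ioi (0 : ℝ), (n : ℝ) * (A' (v / n) - 1) *
        dct φ0 v) atTop (𝓝 (∫ _ in Set.Ioi (0 : ℝ), (0 : ℝ))) := by
      refine tendsto_integral_filter_of_dominated_convergence
        (fun v => M * D1 * (1 + v ^ 2)⁻¹) ?_ ?_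
        ((integrable_inv_one_add_sq.const_mul _).integrableOn) ?_
      · filter_upwards with n
        refine Measurable.aestronglyMeasurable ?_
        exact (measurable_const.mul ((hA'.measurable.comp (by fun_prop)).sub
          measurable_const)).mul (dct_cont h).measurable
      · filter_upwards [eventually_ge_atTop 1] with n hn
        have hn1 : (1 : ℝ) ≤ n := by exact_mod_cast hn
        have hn0 : (0 : ℝ) < n := by linarith
        rw [ae_restrict_iff' measurableSet_Ioi]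
        refine Eventually.of_forall fun v hv => ?_
        have hv0 : 0 < v := hv
        have hvn : 0 < v / n := by positivity
        rw [Real.norm_eq_abs, abs_mul, abs_mul, abs_of_pos hn0,
          abs_of_nonneg (by linarith [hA1 (v / n) hvn.le])]
        have hmain : (n : ℝ) * (A' (v / n) - 1) ≤ M * (1 + v ^ 2) ^ 2 := by
          have hv1 : v ≤ 1 + v ^ 2 := by nlinarith [sq_nonneg (v - 1)]
          have hq1 : 1 ≤ 1 + v ^ 2 := by nlinarith [sq_nonneg v]
          have hq : 1 + v ^ 2 ≤ (1 + v ^ 2) ^ 2 := by nlinarith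
          rcases lt_or_ge (v / n) δ with hc | hc
          · have h1 := hδ1 _ hvn hc
            have h2 : (n : ℝ) * (A' (v / n) - 1) ≤ n * (v / n) := by
              refine mul_le_mul_of_nonneg_left ?_ hn0.le
              linarith
            have h3 : (n : ℝ) * (v / n) = v := by field_simp
            have h4 : 0 ≤ (C0 + 1) / δ * (1 + v ^ 2) ^ 2 := by positivity
            calc (n : ℝ) * (A' (v / n) - 1) ≤ v := h2.trans h3.le
              _ ≤ (1 + v ^ 2) ^ 2 := hv1.trans hq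
              _ ≤ M * (1 + v ^ 2) ^ 2 := by
                  rw [hM]
                  linarith
          · have h1 := (le_abs_self _).trans (hb (v / n))
            have h2 : (n : ℝ) ≤ v / δ := by
              rw [le_div_iff₀ hδ]
              rw [le_div_iff₀ hn0] at hc
              linarith
            have h3 : (v / n) ^ 2 ≤ v ^ 2 := by
              refine pow_le_pow_left₀ hvn.le ?_ 2
              exact div_le_self hv0.le hn1
            have h4 : A' (v / n) - 1 ≤ (C0 + 1) * (1 + v ^ 2) := by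
              have : C0 * (1 + (v / n) ^ 2) ≤ C0 * (1 + v ^ 2) := by gcongr
              nlinarith
            calc (n : ℝ) * (A' (v / n) - 1) ≤ v / δ * ((C0 + 1) * (1 + v ^ 2)) :=
                  mul_le_mul h2 h4 (by linarith [hA1 (v / n) hvn.le]) (by positivity)
              _ ≤ (1 + v ^ 2) / δ * ((C0 + 1) * (1 + v ^ 2)) := by gcongr
              _ = (C0 + 1) / δ * (1 + v ^ 2) ^ 2 := by ring
              _ ≤ M * (1 + v ^ 2) ^ 2 := by
                  rw [hM]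
                  nlinarith [sq_nonneg (1 + v ^ 2)]
        calc (n : ℝ) * (A' (v / n) - 1) * |dct φ0 v| ≤
              M * (1 + v ^ 2) ^ 2 * (D1 / (1 + v ^ 2) ^ 3) :=
              mul_le_mul hmain (hD1 v) (abs_nonneg _) (by positivity)
          _ = M * D1 * (1 + v ^ 2)⁻¹ := by field_simp
      · rw [ae_restrict_iff' measurableSet_Ioi]
        refine Eventually.of_forall fun v hv => ?_
        have hv0 : 0 < v := hv
        have hz : Tendsto (fun n : ℕ => (n : ℝ) * (A' (v / n) - 1)) atTop (𝓝 0) := by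
          rw [Metric.tendsto_atTop]
          intro η hη
          obtain ⟨δ2, hδ2, hδ3⟩ := hrep (η / (2 * v)) (by positivity)
          obtain ⟨N, hN⟩ := exists_nat_gt (v / δ2)
          refine ⟨max N 1, fun n hn => ?_⟩
          have hn1 : (1 : ℝ) ≤ n := by exact_mod_cast (le_max_right _ _).trans hn
          have hn2 : (N : ℝ) ≤ n := by exact_mod_cast (le_max_left _ _).trans hn
          have hn0 : (0 : ℝ) < n := by linarith
          have hvn : 0 < v / n := by positivity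
          have h1 : v / n < δ2 := by
            rw [div_lt_iff₀ hn0]
            rw [div_lt_iff₀ hδ2] at hN
            nlinarith
          have h2 := hδ3 _ hvn h1
          have h3 := hA1 (v / n) hvn.le
          rw [Real.dist_eq, sub_zero, abs_of_nonneg (mul_nonneg hn0.le (by linarith))]
          have h4 : (n : ℝ) * (A' (v / n) - 1) ≤ n * (η / (2 * v) * (v / n)) :=
            mul_le_mul_of_nonneg_left (by linarith) hn0.le
          have h5 : (n : ℝ) * (η / (2 * v) * (v / n)) = η / 2 := by field_simp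
          linarith
        have := hz.mul_const (dct φ0 v)
        simpa using this
    rw [integral_zero] at hlimn
    have hneg' := hlimn.neg
    rw [neg_zero] at hneg'
    refine hneg'.congr' ?_
    filter_upwards [eventually_ge_atTop 1] with n hn
    have hn1 : (1 : ℝ) ≤ n := by exact_mod_cast hn
    have hn0 : (0 : ℝ) < n := by linarith
    -- change of variables
    have hi1 : Integrable fun v => A' (v / n) * dct φ0 v := by
      have := Lam_int h (A := fun v => A' (v / n)) (hA'.measurable.comp (by fun_prop))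
        (C0 := C0) (fun y => by
          refine (hb _).trans (mul_le_mul_of_nonneg_left ?_ hC0)
          have h3 : (y / n) ^ 2 ≤ y ^ 2 := by
            rw [div_pow]
            exact div_le_self (sq_nonneg y) (one_le_pow₀ hn1)
          linarith)
      exact this
    have e1 : Lam A' (str φ0 n) = -(n * ∫ v, A' (v / n) * dct φ0 v) := by
      unfold Lam
      have h1 := Measure.integral_comp_mul_left (fun v => A' (v / n) * dct φ0 v) (n : ℝ)
      rw [smul_eq_mul, abs_of_pos (inv_pos.2 hn0)] at h1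
      have h2 : ∀ y, A' y * dct (str φ0 n) y =
          n * n * (A' (n * y / n) * dct φ0 (n * y)) := by
        intro y
        rw [str_dct h hn0, mul_div_cancel_left₀ _ hn0.ne']
        ring
      simp_rw [h2]
      rw [integral_const_mul, h1]
      field_simp
    have e2 : ∫ v, A' (v / n) * dct φ0 v = ∫ v in Set.Ioi (0 : ℝ), A' (v / n) * dct φ0 v := by
      rw [← integral_add_compl (measurableSet_Iic (a := (0 : ℝ))) hi1]
      have h1 : ∫ y in Set.Iic (0 : ℝ), A' (y / n) * dct φ0 y = 0 := by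
        rw [integral_Iic_eq_integral_Iio]
        refine setIntegral_eq_zero_of_forall_eq_zero fun y hy => ?_
        have hy' : y < 0 := hy
        rw [hneg _ (div_neg_of_neg_of_pos hy' hn0), zero_mul]
      rw [h1, zero_add, Set.compl_Iic]
    have e3 : ∫ v in Set.Ioi (0 : ℝ), (n : ℝ) * (A' (v / n) - 1) * dct φ0 v =
        n * (∫ v in Set.Ioi (0 : ℝ), A' (v / n) * dct φ0 v) + n * ct φ0 0 := by
      have h1 : ∀ v, (n : ℝ) * (A' (v / n) - 1) * dct φ0 v =
          n * (A' (v / n) * dct φ0 v - dct φ0 v) := fun v => by ring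
      simp_rw [h1]
      rw [integral_const_mul, integral_sub hi1.integrableOn (dct_int h).integrableOn,
        tail_int h]
      ring
    rw [e3, e1, e2]
    ring
  have hkey2 : ∀ᶠ n : ℕ in atTop, ℓ * (Lam A' (str φ0 n) - n * ct φ0 0) ≤ ε / 2 := by
    have h1 := key.const_mul ℓ
    rw [mul_zero] at h1
    filter_upwards [(tendsto_order.1 h1).2 (ε / 2) (by positivity)] with n hn
    exact hn.le
  have hkey3 : ∀ᶠ n : ℕ in atTop, D / (n : ℝ) ≤ ε / 2 := by
    have h1 : Tendsto (fun n : ℕ => D / (n : ℝ)) atTop (𝓝 0) :=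
      tendsto_const_div_atTop_nhds_zero_nat D
    filter_upwards [(tendsto_order.1 h1).2 (ε / 2) (by positivity)] with n hn
    exact hn.le
  filter_upwards [hkey2, hkey3, eventually_ge_atTop 1] with n h2 h3 hn
  have hn1 : (1 : ℝ) ≤ n := by exact_mod_cast hn
  have hn0 : (0 : ℝ) < n := by linarith
  obtain ⟨_, h4⟩ := hD n hn1
  have hφ := str_TK h hn0
  have hB := bx_TK hφ hℓ
  have e0 : ct (bx ℓ (str φ0 n)) 0 = ℓ * (n * ct φ0 0) := by
    rw [ct_bx hφ hℓ, str_ct φ0 hn0]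
    simp
  rw [Lam_AG0 hB, e0]
  have hφ' : TK (n * κ + ℓ / 2) (fun α => ℓ * str φ0 n α) :=
    (TK_smul hφ ℓ).mono (by linarith)
  have h5 := Lam_pos RH hgt hA' hlim (TK_sub hφ' hB) (fun u => by
    rw [ct_sub hφ' hB, ct_smul, ct_bx hφ hℓ, str_ct φ0 hn0]
    have h6 := (abs_le.1 (Real.abs_sinc_le_one (π * ℓ * u))).2
    have h7 : 0 ≤ ℓ * (n * ct φ0 (n * u)) := mul_nonneg hℓ.le (mul_nonneg hn0.le (hp _))
    nlinarith)
  rw [Lam_sub hA'.measurable hb hφ' hB, Lam_smul] at h5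
  have h6 := (abs_le.1 h4).1
  linarith

/-- one sided discrepancies vanish -/
lemma one_sided_zero {E : ℝ → ℝ} (hE : LocallyIntegrable E) {s : ℝ}
    (hEs : ∀ᵐ c, s * E c ≤ 0) (hs : s = 1 ∨ s = -1) (h : TK κ φ0) (hφ0 : ∀ x, 0 ≤ φ0 x)
    (hφ1 : 0 < φ0 0)
    (hlim : ∀ ε : ℝ, 0 < ε → ∃ᶠ n : ℕ in atTop, -ε ≤ s * ∫ c, E c * str φ0 n c) :
    ∀ᵐ c, E c = 0 := by
  have hs1 : |s| = 1 := by rcases hs with rfl | rfl <;> simp
  have hs0 : s ≠ 0 := by rcases hs with rfl | rfl <;> norm_num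
  have habs : ∀ᵐ c, |E c| = -(s * E c) := by
    filter_upwards [hEs] with c hc
    rw [← abs_of_nonpos hc, abs_mul, hs1, one_mul]
  have hint : ∀ {φ : ℝ → ℝ} {κ : ℝ}, TK κ φ → Integrable fun c => E c * φ c := by
    intro φ κ hφ
    have := hE.integrable_smul_right_of_hasCompactSupport hφ.cont hφ.hcs
    simpa [smul_eq_mul] using this
  obtain ⟨δ, hδ, hδ2⟩ := Metric.eventually_nhds_iff.1
    ((h.cont.continuousAt (x := 0)).eventually_const_lt (show φ0 0 / 2 < φ0 0 by linarith))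
  have hball : ∀ R : ℝ, 0 < R → ∫ c in Set.Icc (-R) R, |E c| = 0 := by
    intro R hR
    have hiR : IntegrableOn (fun c => |E c|) (Set.Icc (-R) R) :=
      (hE.integrableOn_isCompact isCompact_Icc).abs
    refine le_antisymm ?_ (integral_nonneg fun _ => abs_nonneg _)
    refine le_of_forall_pos_le_add fun ε hε => ?_
    rw [zero_add]
    obtain ⟨n, hn, hnR⟩ := ((hlim (ε * (φ0 0 / 2)) (by positivity)).and_eventually
      (eventually_gt_atTop ⌈R / δ⌉₊)).exists
    have hnR2 : R / δ < n := (Nat.le_ceil _).trans_lt (by exact_mod_cast hnR)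
    have hn0 : (0 : ℝ) < n := (div_pos hR hδ).trans hnR2
    have hφ := str_TK h hn0
    have hφn : ∀ c, 0 ≤ str φ0 n c := fun c => by
      rw [str_val φ0 hn0]
      exact hφ0 _
    have e1 : s * ∫ c, E c * str φ0 n c = -∫ c, |E c| * str φ0 n c := by
      rw [← integral_const_mul, ← integral_neg]
      refine integral_congr_ae ?_
      filter_upwards [habs] with c hc
      rw [hc]
      ring
    have hi2 : Integrable fun c => |E c| * str φ0 n c := by
      refine (hint hφ).abs.congr (Eventually.of_forall fun c => ?_)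
      show |E c * str φ0 n c| = _
      rw [abs_mul, abs_of_nonneg (hφn c)]
    have h1 : (∫ c in Set.Icc (-R) R, |E c|) * (φ0 0 / 2) ≤ ∫ c, |E c| * str φ0 n c := by
      rw [← integral_mul_const]
      refine le_trans ?_ (setIntegral_le_integral (s := Set.Icc (-R) R) hi2
        (Eventually.of_forall fun c => mul_nonneg (abs_nonneg _) (hφn c)))
      refine setIntegral_mono_on (hiR.mul_const _) hi2.integrableOn measurableSet_Icc
        fun c hc => ?_
      refine mul_le_mul_of_nonneg_left ?_ (abs_nonneg _)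
      rw [str_val φ0 hn0]
      refine (hδ2 ?_).le
      rw [Real.dist_eq, sub_zero, abs_mul, abs_of_pos (inv_pos.2 hn0), inv_mul_lt_iff₀ hn0]
      have h3 : |c| ≤ R := abs_le.2 hc
      rw [div_lt_iff₀ hδ] at hnR2
      linarith
    rw [e1] at hn
    have h2 : (∫ c in Set.Icc (-R) R, |E c|) * (φ0 0 / 2) ≤ ε * (φ0 0 / 2) := by linarith
    exact le_of_mul_le_mul_right h2 (by positivity)
  have hall : ∀ᵐ c, ∀ n : ℕ, c ∈ Set.Icc (-((n : ℝ) + 1)) ((n : ℝ) + 1) → E c = 0 := by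
    rw [ae_all_iff]
    intro n
    have hR : (0 : ℝ) < (n : ℝ) + 1 := by positivity
    have h1 := hball _ hR
    have hiR : IntegrableOn (fun c => |E c|) (Set.Icc (-((n : ℝ) + 1)) ((n : ℝ) + 1)) :=
      (hE.integrableOn_isCompact isCompact_Icc).abs
    rw [setIntegral_eq_zero_iff_of_nonneg_ae (Eventually.of_forall fun _ => abs_nonneg _) hiR] at h1
    rw [Filter.EventuallyEq, ae_restrict_iff' measurableSet_Icc] at h1
    filter_upwards [h1] with c hc hc2
    exact abs_eq_zero.1 (hc hc2)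
  filter_upwards [hall] with c hc
  obtain ⟨n, hn⟩ := exists_nat_gt |c|
  refine hc n ?_
  have := abs_le.1 (hn.le.trans (by linarith : (n : ℝ) ≤ (n : ℝ) + 1))
  exact this

end Pool.Agent.H7.FF
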